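import Mathlib

/-!
The surface measure of the unit sphere of a finite dimensional real inner product space is
invariant under linear isometries; curves of infinite variation have infinite length integral.
-/

set_option autoImplicit false

open Metric Set MeasureTheory Filter Topology
open scoped Pointwise ENNReal

namespace Pool.Agent.Work.MP_28e115_an

section sphere

variable {E : Type*} [NormedAddCommGroup E] [InnerProductSpace ℝ E] [FiniteDimensional ℝ E]
  [MeasurableSpace E] [BorelSpace E]

/-- the surface measure as a measure on the whole space -/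
noncomputable def surf (E : Type*) [NormedAddCommGroup E] [InnerProductSpace ℝ E]
    [FiniteDimensional ℝ E] [MeasurableSpace E] [BorelSpace E] : Measure E :=
  Measure.map (Subtype.val : sphere (0 : E) 1 → E) (volume : Measure E).toSphere

instance : IsFiniteMeasure (surf E) := by
  unfold surf
  exact Measure.isFiniteMeasure_map _ _

lemma surf_sphere : ∀ᵐ z ∂(surf E), z ∈ sphere (0 : E) 1 := by
  unfold surf
  rw [ae_map_iff measurable_subtype_coe.aemeasurable]
  · exact Eventually.of_forall fun z => z.2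
  · exact (isClosed_sphere (x := (0 : E)) (ε := 1)).measurableSet

lemma surf_apply {s : Set E} (hs : MeasurableSet s) :
    surf E s = Module.finrank ℝ E * volume (Ioo (0 : ℝ) 1 • (s ∩ sphere (0 : E) 1)) := by
  unfold surf
  rw [Measure.map_apply measurable_subtype_coe hs,
    Measure.toSphere_apply' _ (measurable_subtype_coe hs)]
  congr 4
  rw [Subtype.image_preimage_coe, inter_comm]

lemma surf_map (U : E ≃ₗᵢ[ℝ] E) : Measure.map U (surf E) = surf E := by
  have hUm : Measurable (U : E → E) := U.continuous.measurable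
  ext s hs
  rw [Measure.map_apply hUm hs, surf_apply (hUm hs), surf_apply hs]
  congr 1
  have h1 : Ioo (0 : ℝ) 1 • ((U : E → E) ⁻¹' s ∩ sphere (0 : E) 1)
      = (U : E → E) ⁻¹' (Ioo (0 : ℝ) 1 • (s ∩ sphere (0 : E) 1)) := by
    ext x
    simp only [Set.mem_smul, mem_preimage]
    constructor
    · rintro ⟨r, hr, y, ⟨hy1, hy2⟩, rfl⟩
      refine ⟨r, hr, U y, ⟨hy1, ?_⟩, ?_⟩
      · rw [mem_sphere_zero_iff_norm] at hy2 ⊢
        rw [U.norm_map]; exact hy2
      · rw [map_smul]
    · rintro ⟨r, hr, y, ⟨hy1, hy2⟩, hxy⟩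
      refine ⟨r, hr, U.symm y, ⟨?_, ?_⟩, ?_⟩
      · rw [mem_preimage, U.apply_symm_apply]; exact hy1
      · rw [mem_sphere_zero_iff_norm] at hy2 ⊢
        rw [U.symm.norm_map]; exact hy2
      · apply U.injective
        rw [map_smul, U.apply_symm_apply]; exact hxy
  rw [h1]
  exact (U.measurePreserving).measure_preimage_emb
    (U.toHomeomorph.measurableEmbedding) _

lemma surf_univ_ne_zero [Nontrivial E] : surf E univ ≠ 0 := by
  unfold surf
  rw [Measure.map_apply measurable_subtype_coe MeasurableSet.univ, preimage_univ]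
  rw [Measure.measure_univ_ne_zero]
  exact Measure.toSphere_ne_zero _

end sphere

/-- A `C^1` curve on `[0, 1)` has variation at most the integral of the norm of its derivative. -/
lemma eVariationOn_le_lintegral {g : ℝ → ℂ} (hg : ∀ b : ℝ, b < 1 → ContDiffOn ℝ 1 g (Icc 0 b)) :
    eVariationOn g (Ico (0 : ℝ) 1) ≤ ∫⁻ r in Ioo (0 : ℝ) 1, ‖deriv g r‖ₑ := by
  unfold eVariationOn
  refine iSup_le ?_
  rintro ⟨l, u, hu, hu1⟩
  simp only
  have key : ∀ m : ℕ, ∑ i ∈ Finset.range m, edist (g (u (i + 1))) (g (u i))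
      ≤ ∫⁻ r in Ioc (u 0) (u m), ‖deriv g r‖ₑ := by
    intro m
    induction m with
    | zero => simp
    | succ m ih =>
      rw [Finset.sum_range_succ]
      have h1 : edist (g (u (m + 1))) (g (u m))
          ≤ ∫⁻ r in Ioc (u m) (u (m + 1)), ‖deriv g r‖ₑ := by
        rw [edist_eq_enorm_sub]
        have h2 := enorm_sub_le_lintegral_deriv_of_contDiffOn_Icc (f := g) (a := u m)
          (b := u (m + 1)) ((hg (u (m + 1)) (hu1 (m + 1)).2).mono
            (Icc_subset_Icc_left (hu1 m).1)) (hu (Nat.le_succ m))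
        rwa [restrict_Ioc_eq_restrict_Icc]
      have h3 : Ioc (u 0) (u (m + 1)) = Ioc (u 0) (u m) ∪ Ioc (u m) (u (m + 1)) :=
        (Ioc_union_Ioc_eq_Ioc (hu (Nat.zero_le m)) (hu (Nat.le_succ m))).symm
      rw [h3, lintegral_union measurableSet_Ioc]
      · exact add_le_add ih h1
      · rw [Set.disjoint_left]
        rintro x ⟨_, hx1⟩ ⟨hx2, _⟩
        exact absurd hx1 (not_le.mpr hx2)
  refine (key l).trans (lintegral_mono_set ?_)
  rintro x ⟨hx1, hx2⟩
  exact ⟨(hu1 0).1.trans_lt hx1, hx2.trans_lt (hu1 l).2⟩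

end Pool.Agent.Work.MP_28e115_an
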