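import Pool.Agent.Work.MP_28e115_an.Glue

set_option autoImplicit false

open MeasureTheory Set Filter
open scoped Pointwise

namespace Pool.Agent.Work.MP_28e115_an

section transfer

variable {n : ℕ}

/-- the direction of a vector -/
noncomputable def dir (x : Fin n → ℂ) : EuclideanSpace ℂ (Fin n) :=
  (((‖(WithLp.toLp 2 x : EuclideanSpace ℂ (Fin n))‖⁻¹ : ℝ)) : ℂ) • WithLp.toLp 2 x

lemma norm_toE (x : Fin n → ℂ) :
    ‖(WithLp.toLp 2 x : EuclideanSpace ℂ (Fin n))‖ = Real.sqrt (∑ i, ‖x i‖ ^ 2) :=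
  EuclideanSpace.norm_eq _

lemma continuous_toE : Continuous (fun x : Fin n → ℂ => (WithLp.toLp 2 x : EuclideanSpace ℂ (Fin n))) :=
  PiLp.continuous_toLp 2 _

lemma measurable_dir : Measurable (dir (n := n)) := by
  unfold dir
  have h1 : Measurable (fun x : Fin n → ℂ => (WithLp.toLp 2 x : EuclideanSpace ℂ (Fin n))) :=
    continuous_toE.measurable
  have h2 : Measurable (fun x : Fin n → ℂ =>
      (((‖(WithLp.toLp 2 x : EuclideanSpace ℂ (Fin n))‖⁻¹ : ℝ)) : ℂ)) :=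
    Complex.measurable_ofReal.comp (h1.norm.inv)
  exact h2.smul h1

lemma dir_smul (c : ℂ) (hc : c ≠ 0) (x : Fin n → ℂ) :
    dir (c • x) = (c / ‖c‖) • dir x := by
  unfold dir
  rw [WithLp.toLp_smul, norm_smul, smul_smul, smul_smul]
  congr 1
  have : (‖c‖ : ℂ) ≠ 0 := by exact_mod_cast norm_ne_zero_iff.mpr hc
  push_cast
  field_simp

lemma norm_dir {x : Fin n → ℂ} (hx : 0 < ∑ i, ‖x i‖ ^ 2) : ‖dir x‖ = 1 := by
  unfold dir
  have h1 : 0 < ‖(WithLp.toLp 2 x : EuclideanSpace ℂ (Fin n))‖ := by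
    rw [norm_toE]; exact Real.sqrt_pos.mpr hx
  rw [norm_smul, Complex.norm_real, norm_inv, norm_norm]
  field_simp

/-- the punctured unit ball -/
def pball (n : ℕ) : Set (Fin n → ℂ) := {x | 0 < ∑ i, ‖x i‖ ^ 2 ∧ ∑ i, ‖x i‖ ^ 2 < 1}

lemma measurableSet_pball : MeasurableSet (pball n) := by
  have hc : Continuous (fun x : Fin n → ℂ => ∑ i, ‖x i‖ ^ 2) := by fun_prop
  exact ((isOpen_lt continuous_const hc).inter (isOpen_lt hc continuous_const)).measurableSet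

lemma volume_pball : (volume : Measure (Fin n → ℂ)) (pball n) < ⊤ := by
  refine lt_of_le_of_lt (measure_mono (t := Metric.ball (0 : Fin n → ℂ) 1) ?_) measure_ball_lt_top
  rintro x ⟨_, hx⟩
  rw [mem_ball_zero_iff, pi_norm_lt_iff zero_lt_one]
  intro i
  have h1 : ‖x i‖ ^ 2 ≤ ∑ i, ‖x i‖ ^ 2 :=
    Finset.single_le_sum (f := fun i => ‖x i‖ ^ 2) (fun i _ => by positivity) (Finset.mem_univ i)
  have h2 := norm_nonneg (x i)
  nlinarith

lemma preserving (c : ℂ) (hc : ‖c‖ = 1) :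
    MeasurePreserving (fun x : Fin n → ℂ => c • x) volume volume := by
  have h1 : MeasurePreserving (fun z : ℂ => c * z) volume volume := by
    have hc' : c ∈ Submonoid.unitSphere ℂ := by
      simp [Submonoid.unitSphere, hc]
    have := (rotation ⟨c, hc'⟩).measurePreserving
    exact this
  exact volume_preserving_pi (fun _ : Fin n => h1)

lemma ae_transfer {Q : EuclideanSpace ℂ (Fin n) → Prop}
    (h : ∀ᵐ x ∂((volume : Measure (Fin n → ℂ)).restrict (pball n)), Q (dir x)) (hn : 1 ≤ n) :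
    ∀ᵐ x ∂(volume : Measure (Fin n → ℂ)), 0 < ∑ i, ‖x i‖ ^ 2 ∧ Q (dir x) := by
  rw [ae_restrict_iff' measurableSet_pball] at h
  have h1 : (volume : Measure (Fin n → ℂ)) {x | x ∈ pball n ∧ ¬ Q (dir x)} = 0 := by
    have := ae_iff.mp h
    convert this using 2
    ext x
    simp
  rw [ae_iff]
  have hpos : ∀ x : Fin n → ℂ, x ≠ 0 → 0 < ∑ i, ‖x i‖ ^ 2 := by
    intro x hx
    obtain ⟨i, hi⟩ := Function.ne_iff.mp hx
    have h2 : 0 < ‖x i‖ ^ 2 := by
      have : 0 < ‖x i‖ := norm_pos_iff.mpr hi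
      positivity
    exact h2.trans_le (Finset.single_le_sum (f := fun i => ‖x i‖ ^ 2)
      (fun i _ => by positivity) (Finset.mem_univ i))
  have hsub : {x : Fin n → ℂ | ¬ (0 < ∑ i, ‖x i‖ ^ 2 ∧ Q (dir x))} ⊆
      {0} ∪ ⋃ k : ℕ, ((k + 1 : ℝ)) • {x : Fin n → ℂ | x ∈ pball n ∧ ¬ Q (dir x)} := by
    intro x hx
    by_cases hx0 : x = 0
    · left; exact hx0
    · right
      have hx1 := hpos x hx0
      have hxQ : ¬ Q (dir x) := fun hq => hx ⟨hx1, hq⟩
      obtain ⟨k, hk⟩ := exists_nat_gt (∑ i, ‖x i‖ ^ 2)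
      refine Set.mem_iUnion.mpr ⟨k, ?_⟩
      have hk0 : (0 : ℝ) < k + 1 := by positivity
      rw [Set.mem_smul_set_iff_inv_smul_mem₀ hk0.ne']
      have h3 : ((k + 1 : ℝ))⁻¹ • x = (((k + 1 : ℝ)⁻¹ : ℝ) : ℂ) • x := by
        funext i
        simp
      have hkc : ((((k + 1 : ℝ)⁻¹ : ℝ)) : ℂ) ≠ 0 := by
        exact_mod_cast (inv_pos.mpr hk0).ne'
      have h4 : dir (((k + 1 : ℝ))⁻¹ • x) = dir x := by
        rw [h3, dir_smul _ hkc]
        have : ((((k + 1 : ℝ)⁻¹ : ℝ)) : ℂ) / ‖((((k + 1 : ℝ)⁻¹ : ℝ)) : ℂ)‖ = 1 := by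
          rw [Complex.norm_real, Real.norm_of_nonneg (inv_pos.mpr hk0).le]
          exact div_self hkc
        rw [this, one_smul]
      have h5 : ∑ i, ‖(((k + 1 : ℝ))⁻¹ • x) i‖ ^ 2 = ((k + 1 : ℝ)⁻¹) ^ 2 * ∑ i, ‖x i‖ ^ 2 := by
        rw [Finset.mul_sum]
        refine Finset.sum_congr rfl (fun i _ => ?_)
        rw [Pi.smul_apply, norm_smul, mul_pow, Real.norm_of_nonneg (inv_pos.mpr hk0).le]
      refine ⟨⟨?_, ?_⟩, ?_⟩
      · rw [h5]; positivity
      · rw [h5, inv_pow, inv_mul_lt_iff₀ (by positivity)]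
        have : (0 : ℝ) ≤ k := Nat.cast_nonneg k
        nlinarith
      · rw [h4]; exact hxQ
  refine measure_mono_null hsub ?_
  rw [measure_union_null_iff]
  constructor
  · have : Nonempty (Fin n) := ⟨⟨0, hn⟩⟩
    have : Nontrivial (Fin n → ℂ) := inferInstance
    exact measure_singleton _
  · rw [measure_iUnion_null_iff]
    intro k
    rw [Measure.addHaar_smul, h1, mul_zero]

end transfer

theorem main_thm :
    ∀ n : ℕ, 2 ≤ n →
      ∃ f : (Fin n → ℂ) → ℂ,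
        DifferentiableOn ℂ f {z : Fin n → ℂ | ∑ i, ‖z i‖ ^ 2 < 1} ∧
        (∃ M : ℝ, ∀ z ∈ {z : Fin n → ℂ | ∑ i, ‖z i‖ ^ 2 < 1}, ‖f z‖ ≤ M) ∧
        ∀ᵐ x ∂(volume : Measure (Fin n → ℂ)),
          eVariationOn
            (fun r : ℝ => f ((((r / Real.sqrt (∑ i, ‖x i‖ ^ 2) : ℝ)) : ℂ) • x))
            (Set.Ico (0 : ℝ) 1) = ⊤ := by
  intro n hn
  set μ0 : Measure (Fin n → ℂ) := volume.restrict (pball n) with hμ0
  have : IsFiniteMeasure μ0 := ⟨by rw [hμ0, Measure.restrict_apply_univ]; exact volume_pball⟩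
  set σ : Measure (EuclideanSpace ℂ (Fin n)) := Measure.map dir μ0 with hσ
  have : IsFiniteMeasure σ := Measure.isFiniteMeasure_map _ _
  have hS : ∀ᵐ z ∂σ, ‖z‖ = 1 := by
    rw [hσ, ae_map_iff measurable_dir.aemeasurable
      (measurableSet_eq_fun measurable_norm measurable_const), hμ0]
    filter_upwards [ae_restrict_mem measurableSet_pball] with x hx
    exact norm_dir hx.1
  have hinv : ∀ c : ℂ, ‖c‖ = 1 → Measure.map (fun z => c • z) σ = σ := by
    intro c hc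
    have hc0 : c ≠ 0 := by
      intro h; rw [h, norm_zero] at hc; exact zero_ne_one hc
    rw [hσ, Measure.map_map (by fun_prop) measurable_dir]
    have h1 : (fun z : EuclideanSpace ℂ (Fin n) => c • z) ∘ dir = dir ∘ (fun x => c • x) := by
      funext x
      simp only [Function.comp]
      rw [dir_smul c hc0, hc]
      simp
    rw [h1, ← Measure.map_map measurable_dir (by fun_prop)]
    congr 1
    have h2 := (preserving (n := n) c hc).restrict_preimage (measurableSet_pball (n := n))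
    have h3 : (fun x : Fin n → ℂ => c • x) ⁻¹' (pball n) = pball n := by
      ext x
      simp only [pball, Set.mem_preimage]
      have : ∑ i, ‖(c • x) i‖ ^ 2 = ∑ i, ‖x i‖ ^ 2 := by
        refine Finset.sum_congr rfl (fun i _ => ?_)
        rw [Pi.smul_apply, norm_smul, hc, one_mul]
      change (0 < ∑ i, ‖(c • x) i‖ ^ 2 ∧ ∑ i, ‖(c • x) i‖ ^ 2 < 1) ↔ _
      rw [this]
      exact Iff.rfl
    rw [h3] at h2
    exact h2.map_eq
  obtain ⟨f, hf1, hf2, hf3⟩ := exists_f (n := n) (σ := σ) (by omega) hS hinv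
  have hball : ∀ z : Fin n → ℂ, ∑ i, ‖z i‖ ^ 2 < 1 →
      ‖(WithLp.toLp 2 z : EuclideanSpace ℂ (Fin n))‖ < 1 := by
    intro z hz
    rw [norm_toE, Real.sqrt_lt' one_pos, one_pow]
    exact hz
  refine ⟨fun x => f (WithLp.toLp 2 x), ?_, ⟨1, ?_⟩, ?_⟩
  · refine hf1.comp (t := Metric.ball 0 1) ?_ ?_
    · have : Differentiable ℂ (fun x : Fin n → ℂ => (WithLp.toLp 2 x : EuclideanSpace ℂ (Fin n))) :=
        (PiLp.continuousLinearEquiv 2 ℂ (fun _ : Fin n => ℂ)).symm.differentiable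
      exact this.differentiableOn
    · intro z hz
      exact mem_ball_zero_iff.mpr (hball z hz)
  · intro z hz
    exact hf2 _ (hball z hz).le
  · have h1 : ∀ᵐ x ∂μ0, ∀ M : ℝ, ∃ (u : ℕ → ℝ) (l : ℕ), Monotone u ∧
        (∀ i, u i ∈ Ico (0 : ℝ) 1) ∧ M ≤ PS u l f (dir x) :=
      ae_of_ae_map measurable_dir.aemeasurable hf3
    have h2 := ae_transfer (n := n) (Q := fun z => ∀ M : ℝ, ∃ (u : ℕ → ℝ) (l : ℕ), Monotone u ∧
        (∀ i, u i ∈ Ico (0 : ℝ) 1) ∧ M ≤ PS u l f z) h1 (by omega)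
    filter_upwards [h2] with x hx
    obtain ⟨hx0, hx⟩ := hx
    apply ENNReal.eq_top_of_forall_nnreal_le
    intro M
    obtain ⟨u, l, hu, hu1, hM⟩ := hx M
    have hsum := eVariationOn.sum_le (n := l)
      (f := fun r : ℝ => f (WithLp.toLp 2 ((((r / Real.sqrt (∑ i, ‖x i‖ ^ 2) : ℝ)) : ℂ) • x)))
      hu hu1
    refine le_trans ?_ hsum
    have h3 : ∀ r : ℝ, (WithLp.toLp 2 ((((r / Real.sqrt (∑ i, ‖x i‖ ^ 2) : ℝ)) : ℂ) • x) :
        EuclideanSpace ℂ (Fin n)) = (r : ℂ) • dir x := by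
      intro r
      unfold dir
      rw [WithLp.toLp_smul, smul_smul, norm_toE]
      congr 1
      push_cast
      rw [div_eq_mul_inv]
    have h4 : ∀ i, edist (f (WithLp.toLp 2 ((((u (i + 1) / Real.sqrt (∑ i, ‖x i‖ ^ 2) : ℝ)) : ℂ) • x)))
        (f (WithLp.toLp 2 ((((u i / Real.sqrt (∑ i, ‖x i‖ ^ 2) : ℝ)) : ℂ) • x)))
        = ENNReal.ofReal ‖f (((u (i + 1) : ℝ) : ℂ) • dir x) - f (((u i : ℝ) : ℂ) • dir x)‖ := by
      intro i
      rw [h3, h3, edist_dist, dist_eq_norm]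
    simp_rw [h4]
    rw [← ENNReal.ofReal_sum_of_nonneg (fun i _ => norm_nonneg _)]
    rw [← ENNReal.ofReal_coe_nnreal]
    exact ENNReal.ofReal_le_ofReal hM

end Pool.Agent.Work.MP_28e115_an
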