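import Pool.Agent.Work.MP_28e115_an.Glue

/-!
The function of `exists_f` can be taken continuous on the closed ball (same construction).
-/

set_option autoImplicit false

open Metric Set MeasureTheory Filter Topology
open scoped InnerProductSpace ENNReal ComplexConjugate

namespace Pool.Agent.Work.MP_28e115_an

variable {n : ℕ} {σ : Measure (EuclideanSpace ℂ (Fin n))} [IsFiniteMeasure σ]

theorem exists_f_cont (hn : 1 ≤ n) (hS : ∀ᵐ z ∂σ, ‖z‖ = 1)
    (hinv : ∀ c : ℂ, ‖c‖ = 1 → Measure.map (fun z => c • z) σ = σ) :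
    ∃ f : EuclideanSpace ℂ (Fin n) → ℂ, ContinuousOn f (closedBall 0 1) ∧
      DifferentiableOn ℂ f (ball 0 1) ∧
      (∀ w, ‖w‖ ≤ 1 → ‖f w‖ ≤ 1) ∧
      ∀ᵐ z ∂σ, ∀ M : ℝ, ∃ (u : ℕ → ℝ) (l : ℕ), Monotone u ∧ (∀ i, u i ∈ Ico (0 : ℝ) 1) ∧
        M ≤ PS u l f z := by
  classical
  -- one step of the recursion
  have hnext : ∀ (p : ℕ) (G : EuclideanSpace ℂ (Fin n) → ℂ) (Λ : ℕ), (∃ D, G ∈ PolyLE n D) →
      ∃ (F : EuclideanSpace ℂ (Fin n) → ℂ) (l : ℕ) (u : ℕ → ℝ), (∃ D, F ∈ PolyLE n D) ∧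
        Monotone u ∧ (∀ i, u i ∈ Ico (0 : ℝ) 1) ∧
        (∀ w, ‖w‖ ≤ 1 → ‖F w‖ ≤ (1 / 2) ^ (p + 2) / (Λ + 1)) ∧
        σ.real {z | ‖z‖ = 1 ∧ PS u l F z ≤ PS u l G z + (p + 2)} ≤ (1 / 2) ^ (p + 2) := by
    rintro p G Λ ⟨D, hG⟩
    obtain ⟨Kv, hKv⟩ := PolyLE.bddvar hG
    obtain ⟨F, D', l, u, hF, hu, hu1, hFb, hm⟩ := phase' hn hS hinv (|Kv| + (p + 2))
      (by positivity) ((1 / 2) ^ (p + 2) / (Λ + 1)) (by positivity)
    refine ⟨F, l, u, ⟨D', hF⟩, hu, hu1, hFb, ?_⟩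
    have h1 : ((1 : ℝ) / 2) ^ (p + 2) / (Λ + 1) ≤ (1 / 2) ^ (p + 2) := by
      apply div_le_self (by positivity)
      have : (0 : ℝ) ≤ Λ := Nat.cast_nonneg Λ
      linarith
    refine le_trans (measureReal_mono ?_ (measure_ne_top _ _)) (hm.trans h1)
    rintro z ⟨hz1, hz2⟩
    refine ⟨hz1, hz2.trans ?_⟩
    have := hKv z hz1 u l hu hu1
    have h2 := le_abs_self Kv
    linarith
  choose! Fn ln un hFn hun hun1 hFnb hFnm using hnext
  -- the recursion
  let st : ℕ → (EuclideanSpace ℂ (Fin n) → ℂ) × ℕ := fun p =>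
    Nat.rec (0, 0) (fun p x => (x.1 + Fn p x.1 x.2, max x.2 (ln p x.1 x.2))) p
  have hst0 : st 0 = (0, 0) := rfl
  have hst1 : ∀ p, st (p + 1) = ((st p).1 + Fn p (st p).1 (st p).2,
      max (st p).2 (ln p (st p).1 (st p).2)) := fun p => rfl
  have hpoly : ∀ p, ∃ D, (st p).1 ∈ PolyLE n D := by
    intro p
    induction p with
    | zero => exact ⟨0, by rw [hst0]; exact Submodule.zero_mem _⟩
    | succ p ih =>
      obtain ⟨D1, h1⟩ := ih
      obtain ⟨D2, h2⟩ := hFn p (st p).1 (st p).2 ⟨D1, h1⟩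
      rw [hst1]
      exact ⟨max D1 D2, Submodule.add_mem _ (PolyLE.mono (le_max_left _ _) h1)
        (PolyLE.mono (le_max_right _ _) h2)⟩
  set G : ℕ → EuclideanSpace ℂ (Fin n) → ℂ := fun p => (st p).1 with hG
  set Λ : ℕ → ℕ := fun p => (st p).2 with hΛ
  set F : ℕ → EuclideanSpace ℂ (Fin n) → ℂ := fun p => Fn p (G p) (Λ p) with hF
  set l : ℕ → ℕ := fun p => ln p (G p) (Λ p) with hl
  set u : ℕ → ℕ → ℝ := fun p => un p (G p) (Λ p) with hu
  have hG0 : G 0 = 0 := rfl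
  have hG1 : ∀ p, G (p + 1) = G p + F p := fun p => rfl
  have hΛ1 : ∀ p, Λ (p + 1) = max (Λ p) (l p) := fun p => rfl
  have hGsum : ∀ p, G p = ∑ q ∈ Finset.range p, F q := by
    intro p
    induction p with
    | zero => rw [hG0, Finset.sum_range_zero]
    | succ p ih => rw [hG1, Finset.sum_range_succ, ih]
  have hΛmono : Monotone Λ := monotone_nat_of_le_succ (fun p => by
    rw [hΛ1]; exact le_max_left _ _)
  have hlΛ : ∀ p q, p < q → l p ≤ Λ q := by
    intro p q hpq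
    have h1 : l p ≤ Λ (p + 1) := by rw [hΛ1]; exact le_max_right _ _
    exact h1.trans (hΛmono hpq)
  have hFb : ∀ q w, ‖w‖ ≤ 1 → ‖F q w‖ ≤ (1 / 2) ^ (q + 2) / (Λ q + 1) :=
    fun q w hw => hFnb q (G q) (Λ q) (hpoly q) w hw
  have hFb' : ∀ q w, ‖w‖ ≤ 1 → ‖F q w‖ ≤ (1 / 2) ^ (q + 2) := by
    intro q w hw
    refine (hFb q w hw).trans ?_
    apply div_le_self (by positivity)
    have : (0 : ℝ) ≤ Λ q := Nat.cast_nonneg _
    linarith
  have hgeo : Summable (fun q : ℕ => ((1 : ℝ) / 2) ^ (q + 2)) := by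
    have := (summable_geometric_of_lt_one (r := (1 : ℝ) / 2) (by norm_num) (by norm_num)).mul_right
      ((1 / 2 : ℝ) ^ 2)
    refine this.congr (fun q => ?_)
    rw [pow_add]
  have hgeo' : ∑' q : ℕ, ((1 : ℝ) / 2) ^ (q + 2) = 1 / 2 := by
    have h1 : ∀ q : ℕ, ((1 : ℝ) / 2) ^ (q + 2) = (1 / 2) ^ q * (1 / 2) ^ 2 := fun q => pow_add _ _ _
    rw [tsum_congr h1, tsum_mul_right, tsum_geometric_of_lt_one (by norm_num) (by norm_num)]
    norm_num
  have hFdiff : ∀ q, Differentiable ℂ (F q) := by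
    intro q
    obtain ⟨D, hD⟩ := hFn q (G q) (Λ q) (hpoly q)
    exact PolyLE.diff hD
  have hsummable : ∀ w : EuclideanSpace ℂ (Fin n), ‖w‖ ≤ 1 → Summable (fun q => F q w) :=
    fun w hw => Summable.of_norm_bounded hgeo (fun q => hFb' q w hw)
  refine ⟨fun w => ∑' q, F q w, ?_, ?_, ?_, ?_⟩
  · exact continuousOn_tsum (fun q => (hFdiff q).continuous.continuousOn) hgeo
      (fun q w hw => hFb' q w (mem_closedBall_zero_iff.mp hw))
  · exact differentiableOn_series hFdiff hgeo (fun q => by positivity) hFb'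
  · intro w hw
    have h1 : ‖∑' q, F q w‖ ≤ ∑' q : ℕ, ((1 : ℝ) / 2) ^ (q + 2) :=
      tsum_of_norm_bounded hgeo.hasSum (fun q => hFb' q w hw)
    rw [hgeo'] at h1
    simp only
    linarith
  · set Bad : ℕ → Set (EuclideanSpace ℂ (Fin n)) := fun p =>
      {z | ‖z‖ = 1 ∧ PS (u p) (l p) (F p) z ≤ PS (u p) (l p) (G p) z + (p + 2)} with hBad
    have hBadm : ∀ p, σ (Bad p) ≤ ENNReal.ofReal ((1 / 2) ^ (p + 2)) := by
      intro p
      have h1 : σ.real (Bad p) ≤ (1 / 2) ^ (p + 2) := hFnm p (G p) (Λ p) (hpoly p)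
      rw [← ofReal_measureReal (measure_ne_top σ (Bad p))]
      exact ENNReal.ofReal_le_ofReal h1
    have hBadsum : ∑' p, σ (Bad p) ≠ ∞ := by
      have h1 : ∑' p, σ (Bad p) ≤ ∑' p : ℕ, ENNReal.ofReal ((1 / 2) ^ (p + 2)) :=
        ENNReal.tsum_le_tsum hBadm
      have h2 : ∑' p : ℕ, ENNReal.ofReal ((1 / 2) ^ (p + 2)) ≠ ∞ := hgeo.tsum_ofReal_ne_top
      exact ne_top_of_le_ne_top h2 h1
    have hae := ae_eventually_notMem hBadsum
    filter_upwards [hae, hS] with z hz hz1 M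
    obtain ⟨P, hP⟩ := eventually_atTop.mp hz
    obtain ⟨Q, hQ⟩ := exists_nat_ge M
    set p := max P Q with hp
    have hzp := hP p (le_max_left _ _)
    have hMp : M ≤ p := hQ.trans (by exact_mod_cast le_max_right P Q)
    refine ⟨u p, l p, hun p (G p) (Λ p) (hpoly p), hun1 p (G p) (Λ p) (hpoly p), ?_⟩
    have h1 : PS (u p) (l p) (G p) z + (p + 2) < PS (u p) (l p) (F p) z := by
      by_contra hcon
      exact hzp ⟨hz1, not_lt.mp hcon⟩
    -- the remainder
    set R : EuclideanSpace ℂ (Fin n) → ℂ := fun w => (∑' q, F q w) - G (p + 1) w with hR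
    have hf : (fun w => ∑' q, F q w) = F p + (G p + R) := by
      funext w
      have : G (p + 1) w = G p w + F p w := by rw [hG1]; rfl
      simp only [hR, Pi.add_apply, this]
      ring
    have hRb : ∀ w, ‖w‖ ≤ 1 → ‖R w‖ ≤ 1 / (4 * (l p + 1)) := by
      intro w hw
      have h2 := (hsummable w hw).sum_add_tsum_nat_add (p + 1)
      have h3 : R w = ∑' q, F (q + (p + 1)) w := by
        simp only [hR]
        rw [← h2, hGsum (p + 1), Finset.sum_apply]
        ring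
      rw [h3]
      have hgeo2 : Summable (fun q : ℕ => ((1 : ℝ) / 2) ^ (q + 2) * (1 / (2 * (l p + 1)))) :=
        hgeo.mul_right _
      have h4 : ‖∑' q, F (q + (p + 1)) w‖
          ≤ ∑' q : ℕ, ((1 : ℝ) / 2) ^ (q + 2) * (1 / (2 * (l p + 1))) := by
        refine tsum_of_norm_bounded hgeo2.hasSum (fun q => ?_)
        refine (hFb (q + (p + 1)) w hw).trans ?_
        have h5 : l p ≤ Λ (q + (p + 1)) := hlΛ p (q + (p + 1)) (by omega)
        have h6 : (l p : ℝ) ≤ Λ (q + (p + 1)) := by exact_mod_cast h5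
        have h7 : ((1 : ℝ) / 2) ^ (q + (p + 1) + 2) ≤ (1 / 2) ^ (q + 2) * (1 / 2) := by
          have : q + (p + 1) + 2 = (q + 2) + 1 + p := by ring
          rw [this, pow_add, pow_add, pow_one]
          have h8 : ((1 : ℝ) / 2) ^ p ≤ 1 := pow_le_one₀ (by norm_num) (by norm_num)
          have h9 : (0 : ℝ) ≤ (1 / 2) ^ (q + 2) * (1 / 2) := by positivity
          nlinarith
        calc ((1 : ℝ) / 2) ^ (q + (p + 1) + 2) / (Λ (q + (p + 1)) + 1)
            ≤ ((1 / 2) ^ (q + 2) * (1 / 2)) / (l p + 1) := by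
              gcongr
          _ = (1 / 2) ^ (q + 2) * (1 / (2 * (l p + 1))) := by
              field_simp
      refine h4.trans (le_of_eq ?_)
      rw [tsum_mul_right, hgeo']
      field_simp
      norm_num
    have h2 : PS (u p) (l p) R z ≤ 1 := by
      have h3 : PS (u p) (l p) R z ≤ 2 * (l p) * (1 / (4 * (l p + 1))) := by
        apply PS_le_of_bound
        intro i _
        apply hRb
        have h4 := hun1 p (G p) (Λ p) (hpoly p) i
        rw [norm_smul, hz1, mul_one, Complex.norm_real, Real.norm_of_nonneg h4.1]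
        exact h4.2.le
      refine h3.trans ?_
      have hl0 : (0 : ℝ) ≤ l p := Nat.cast_nonneg _
      rw [mul_one_div, div_le_one (by positivity)]
      linarith
    rw [hf]
    have h3 := PS_sub_le (u p) (l p) (F p) (G p + R) z
    have h4 := PS_add_le (u p) (l p) (G p) R z
    linarith

end Pool.Agent.Work.MP_28e115_an
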