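import Pool.Agent.Work.MP_28e115_an.Step

set_option autoImplicit false

open Metric Set MeasureTheory Filter Topology
open scoped InnerProductSpace ENNReal ComplexConjugate

namespace Pool.Agent.Work.MP_28e115_an

lemma PolyLE.cont {n D : ℕ} {F : EuclideanSpace ℂ (Fin n) → ℂ} (hF : F ∈ PolyLE n D) :
    Continuous F := by
  refine Submodule.span_induction (p := fun f _ => Continuous f) ?_ ?_ ?_ ?_ hF
  · rintro f ⟨ζ, j, _, rfl⟩
    fun_prop
  · exact continuous_const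
  · intro f g _ _ hf hg
    exact hf.add hg
  · intro a f _ hf
    exact hf.const_smul a

lemma PolyLE.diff {n D : ℕ} {F : EuclideanSpace ℂ (Fin n) → ℂ} (hF : F ∈ PolyLE n D) :
    Differentiable ℂ F := by
  refine Submodule.span_induction (p := fun f _ => Differentiable ℂ f) ?_ ?_ ?_ ?_ hF
  · rintro f ⟨ζ, j, _, rfl⟩
    have h1 : Differentiable ℂ (fun z : EuclideanSpace ℂ (Fin n) => ⟪ζ, z⟫_ℂ) :=
      (innerSL ℂ ζ).differentiable
    exact h1.pow j
  · exact differentiable_const _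
  · intro f g _ _ hf hg
    exact hf.add hg
  · intro a f _ hf
    exact hf.const_smul a

lemma PolyGT.cont {n D : ℕ} {F : EuclideanSpace ℂ (Fin n) → ℂ} (hF : F ∈ PolyGT n D) :
    Continuous F := by
  refine Submodule.span_induction (p := fun f _ => Continuous f) ?_ ?_ ?_ ?_ hF
  · rintro f ⟨ζ, j, _, rfl⟩
    fun_prop
  · exact continuous_const
  · intro f g _ _ hf hg
    exact hf.add hg
  · intro a f _ hf
    exact hf.const_smul a

lemma PolyLE.mono {n D D' : ℕ} (h : D ≤ D') : PolyLE n D ≤ PolyLE n D' := by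
  apply Submodule.span_mono
  rintro f ⟨ζ, j, hj, rfl⟩
  exact ⟨ζ, j, hj.trans h, rfl⟩

/-- variation sum of `F` along the radius through `z` on the partition `u 0 ≤ … ≤ u l` -/
noncomputable def PS {n : ℕ} (u : ℕ → ℝ) (l : ℕ) (F : EuclideanSpace ℂ (Fin n) → ℂ)
    (z : EuclideanSpace ℂ (Fin n)) : ℝ :=
  ∑ i ∈ Finset.range l, ‖F (((u (i + 1) : ℝ) : ℂ) • z) - F (((u i : ℝ) : ℂ) • z)‖

lemma PS_add_le {n : ℕ} (u : ℕ → ℝ) (l : ℕ) (F G : EuclideanSpace ℂ (Fin n) → ℂ)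
    (z : EuclideanSpace ℂ (Fin n)) : PS u l (F + G) z ≤ PS u l F z + PS u l G z := by
  unfold PS
  rw [← Finset.sum_add_distrib]
  refine Finset.sum_le_sum (fun i _ => ?_)
  simp only [Pi.add_apply]
  rw [add_sub_add_comm]
  exact norm_add_le _ _

lemma PS_smul {n : ℕ} (u : ℕ → ℝ) (l : ℕ) (c : ℂ) (F : EuclideanSpace ℂ (Fin n) → ℂ)
    (z : EuclideanSpace ℂ (Fin n)) : PS u l (c • F) z = ‖c‖ * PS u l F z := by
  unfold PS
  rw [Finset.mul_sum]
  refine Finset.sum_congr rfl (fun i _ => ?_)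
  simp only [Pi.smul_apply, smul_eq_mul]
  rw [← mul_sub, norm_mul]

lemma PS_nonneg {n : ℕ} (u : ℕ → ℝ) (l : ℕ) (F : EuclideanSpace ℂ (Fin n) → ℂ)
    (z : EuclideanSpace ℂ (Fin n)) : 0 ≤ PS u l F z :=
  Finset.sum_nonneg (fun _ _ => norm_nonneg _)

/-- A small function has a small variation sum. -/
lemma PS_le_of_bound {n : ℕ} (u : ℕ → ℝ) (l : ℕ)
    (F : EuclideanSpace ℂ (Fin n) → ℂ) (z : EuclideanSpace ℂ (Fin n)) (ε : ℝ)
    (h : ∀ i, i ≤ l → ‖F (((u i : ℝ) : ℂ) • z)‖ ≤ ε) :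
    PS u l F z ≤ 2 * l * ε := by
  unfold PS
  calc ∑ i ∈ Finset.range l, ‖F (((u (i + 1) : ℝ) : ℂ) • z) - F (((u i : ℝ) : ℂ) • z)‖
      ≤ ∑ _i ∈ Finset.range l, (ε + ε) := by
        refine Finset.sum_le_sum (fun i hi => ?_)
        have hi' := Finset.mem_range.mp hi
        refine (norm_sub_le _ _).trans (add_le_add (h _ (by omega)) (h _ (by omega)))
    _ = 2 * l * ε := by
        rw [Finset.sum_const, Finset.card_range, nsmul_eq_mul]; ring

lemma PS_sub_le {n : ℕ} (u : ℕ → ℝ) (l : ℕ) (F G : EuclideanSpace ℂ (Fin n) → ℂ)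
    (z : EuclideanSpace ℂ (Fin n)) : PS u l F z - PS u l G z ≤ PS u l (F + G) z := by
  have h := PS_add_le u l (F + G) ((-1 : ℂ) • G) z
  have h2 : F + G + (-1 : ℂ) • G = F := by
    funext w; simp
  rw [h2, PS_smul] at h
  simp only [norm_neg, norm_one, one_mul] at h
  linarith

/-- Polynomials have bounded radial variation on the sphere. -/
lemma PolyLE.bddvar {n D : ℕ} {F : EuclideanSpace ℂ (Fin n) → ℂ} (hF : F ∈ PolyLE n D) :
    ∃ K : ℝ, ∀ z, ‖z‖ = 1 → ∀ (u : ℕ → ℝ) (l : ℕ), Monotone u → (∀ i, u i ∈ Ico (0 : ℝ) 1) →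
      PS u l F z ≤ K := by
  refine Submodule.span_induction (p := fun f _ => ∃ K : ℝ, ∀ z, ‖z‖ = 1 →
    ∀ (u : ℕ → ℝ) (l : ℕ), Monotone u → (∀ i, u i ∈ Ico (0 : ℝ) 1) → PS u l f z ≤ K)
    ?_ ?_ ?_ ?_ hF
  · rintro f ⟨ζ, j, _, rfl⟩
    refine ⟨‖ζ‖ ^ j, fun z hz u l hu hu1 => ?_⟩
    unfold PS
    have h1 : ∀ i, ‖⟪ζ, ((u (i + 1) : ℝ) : ℂ) • z⟫_ℂ ^ j - ⟪ζ, ((u i : ℝ) : ℂ) • z⟫_ℂ ^ j‖
        ≤ ‖ζ‖ ^ j * (u (i + 1) ^ j - u i ^ j) := by
      intro i
      rw [inner_smul_right, inner_smul_right, mul_pow, mul_pow, ← sub_mul, norm_mul]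
      have h2 : ‖((u (i + 1) : ℝ) : ℂ) ^ j - ((u i : ℝ) : ℂ) ^ j‖ = u (i + 1) ^ j - u i ^ j := by
        rw [← Complex.ofReal_pow, ← Complex.ofReal_pow, ← Complex.ofReal_sub, Complex.norm_real,
          Real.norm_of_nonneg]
        have h3 : u i ≤ u (i + 1) := hu (Nat.le_succ i)
        have h4 := (hu1 i).1
        have : u i ^ j ≤ u (i + 1) ^ j := by gcongr
        linarith
      have h3 : ‖⟪ζ, z⟫_ℂ ^ j‖ ≤ ‖ζ‖ ^ j := by
        rw [norm_pow]
        have := norm_inner_le_norm (𝕜 := ℂ) ζ z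
        rw [hz, mul_one] at this
        gcongr
      rw [h2, mul_comm]
      have h4 : 0 ≤ u (i + 1) ^ j - u i ^ j := by
        rw [← h2]; exact norm_nonneg _
      gcongr
    calc ∑ i ∈ Finset.range l,
        ‖⟪ζ, ((u (i + 1) : ℝ) : ℂ) • z⟫_ℂ ^ j - ⟪ζ, ((u i : ℝ) : ℂ) • z⟫_ℂ ^ j‖
        ≤ ∑ i ∈ Finset.range l, ‖ζ‖ ^ j * (u (i + 1) ^ j - u i ^ j) :=
          Finset.sum_le_sum (fun i _ => h1 i)
      _ = ‖ζ‖ ^ j * (u l ^ j - u 0 ^ j) := by
          rw [← Finset.mul_sum, Finset.sum_range_sub (fun i => u i ^ j)]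
      _ ≤ ‖ζ‖ ^ j * 1 := by
          have h5 : u l ^ j ≤ 1 := pow_le_one₀ (hu1 l).1 (hu1 l).2.le
          have h6 : 0 ≤ u 0 ^ j := pow_nonneg (hu1 0).1 j
          gcongr
          linarith
      _ = ‖ζ‖ ^ j := mul_one _
  · refine ⟨0, fun z _ u l _ _ => ?_⟩
    unfold PS
    simp
  · rintro f g _ _ ⟨K1, h1⟩ ⟨K2, h2⟩
    refine ⟨K1 + K2, fun z hz u l hu hu1 => ?_⟩
    exact (PS_add_le u l f g z).trans (add_le_add (h1 z hz u l hu hu1) (h2 z hz u l hu hu1))
  · rintro a f _ ⟨K1, h1⟩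
    refine ⟨‖a‖ * K1, fun z hz u l hu hu1 => ?_⟩
    rw [PS_smul]
    exact mul_le_mul_of_nonneg_left (h1 z hz u l hu hu1) (norm_nonneg _)

/-- extending a partition by two points -/
lemma PS_extend {n : ℕ} (u : ℕ → ℝ) (hu : Monotone u) (hu1 : ∀ i, u i ∈ Ico (0 : ℝ) 1) (l : ℕ)
    (a b : ℝ) (ha : u l ≤ a) (hab : a ≤ b) (hb : b < 1) :
    ∃ u' : ℕ → ℝ, Monotone u' ∧ (∀ i, u' i ∈ Ico (0 : ℝ) 1) ∧
      ∀ (F : EuclideanSpace ℂ (Fin n) → ℂ) (z : EuclideanSpace ℂ (Fin n)),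
        PS u l F z + ‖F ((b : ℂ) • z) - F ((a : ℂ) • z)‖ ≤ PS u' (l + 2) F z := by
  refine ⟨fun i => if i ≤ l then u i else if i = l + 1 then a else b, ?_, ?_, ?_⟩
  · intro i j hij
    simp only
    split_ifs with h1 h2 h3 h4 h5 h6 h7
    · exact hu hij
    · exact (hu h1).trans ha
    · exact ((hu h1).trans ha).trans hab
    · omega
    · exact le_refl _
    · exact hab
    · omega
    · omega
    · exact le_refl _
  · intro i
    simp only
    have h0 := hu1 l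
    split_ifs with h1 h2
    · exact hu1 i
    · exact ⟨h0.1.trans ha, hab.trans_lt hb⟩
    · exact ⟨(h0.1.trans ha).trans hab, hb⟩
  · intro F z
    unfold PS
    rw [Finset.sum_range_succ, Finset.sum_range_succ]
    beta_reduce
    have h1 : ∑ i ∈ Finset.range l, ‖F (((u (i + 1) : ℝ) : ℂ) • z) - F (((u i : ℝ) : ℂ) • z)‖
        = ∑ i ∈ Finset.range l,
          ‖F ((((if i + 1 ≤ l then u (i + 1) else if i + 1 = l + 1 then a else b) : ℝ) : ℂ) • z)
            - F ((((if i ≤ l then u i else if i = l + 1 then a else b) : ℝ) : ℂ) • z)‖ := by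
      refine Finset.sum_congr rfl (fun i hi => ?_)
      have hi' := Finset.mem_range.mp hi
      rw [if_pos (show i + 1 ≤ l by omega), if_pos (show i ≤ l by omega)]
    rw [h1]
    have h2 : ¬ (l + 1 + 1 ≤ l) := by omega
    have h3 : ¬ (l + 1 + 1 = l + 1) := by omega
    have h4 : ¬ (l + 1 ≤ l) := by omega
    rw [if_neg h2, if_neg h3, if_neg h4, if_pos rfl]
    have h5 : 0 ≤ ‖F ((((a : ℝ)) : ℂ) • z)
            - F ((((if l ≤ l then u l else if l = l + 1 then a else b) : ℝ) : ℂ) • z)‖ :=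
      norm_nonneg _
    linarith

section orth

variable {n : ℕ} {σ : Measure (EuclideanSpace ℂ (Fin n))} [IsFiniteMeasure σ]

lemma integrable_cont {F : Type*} [NormedAddCommGroup F]
    (hS : ∀ᵐ z ∂σ, ‖z‖ = 1) {f : EuclideanSpace ℂ (Fin n) → F} [SecondCountableTopology F]
    [MeasurableSpace F] [BorelSpace F]
    (hf : Continuous f) : Integrable f σ := by
  obtain ⟨M, hM⟩ := (isCompact_sphere (0 : EuclideanSpace ℂ (Fin n)) 1).exists_bound_of_continuousOn
    hf.continuousOn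
  refine Integrable.of_bound hf.aestronglyMeasurable M ?_
  filter_upwards [hS] with z hz
  exact hM z (mem_sphere_zero_iff_norm.mpr hz)

lemma orth (hS : ∀ᵐ z ∂σ, ‖z‖ = 1)
    (hinv : ∀ c : ℂ, ‖c‖ = 1 → Measure.map (fun z => c • z) σ = σ)
    {D : ℕ} {F G : EuclideanSpace ℂ (Fin n) → ℂ} (hF : F ∈ PolyLE n D) (hG : G ∈ PolyGT n D) :
    ∫ z, conj (F z) * G z ∂σ = 0 := by
  -- monomials
  have key : ∀ (ζ ζ' : EuclideanSpace ℂ (Fin n)) (j k : ℕ), j < k →
      ∫ z, conj (⟪ζ, z⟫_ℂ ^ j) * ⟪ζ', z⟫_ℂ ^ k ∂σ = 0 := by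
    intro ζ ζ' j k hjk
    set p := k - j with hp
    have hp0 : 0 < p := by omega
    set c : ℂ := Complex.exp ((Real.pi / p : ℝ) * Complex.I) with hc
    have hc1 : ‖c‖ = 1 := Complex.norm_exp_ofReal_mul_I _
    have hcp : c ^ p = -1 := by
      rw [hc, ← Complex.exp_nat_mul]
      have hp' : (p : ℂ) ≠ 0 := by exact_mod_cast hp0.ne'
      have : (p : ℂ) * (((Real.pi / p : ℝ) : ℂ) * Complex.I) = Real.pi * Complex.I := by
        push_cast
        field_simp
      rw [this, Complex.exp_pi_mul_I]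
    have hcc : conj c * c = 1 := by
      rw [mul_comm, Complex.mul_conj, Complex.normSq_eq_norm_sq, hc1]
      simp
    have hcjk : (conj c) ^ j * c ^ k = -1 := by
      have : k = j + p := by omega
      rw [this, pow_add, ← mul_assoc, ← mul_pow, hcc, one_pow, one_mul, hcp]
    set I := ∫ z, conj (⟪ζ, z⟫_ℂ ^ j) * ⟪ζ', z⟫_ℂ ^ k ∂σ with hI
    have hcont : Continuous (fun z : EuclideanSpace ℂ (Fin n) =>
        conj (⟪ζ, z⟫_ℂ ^ j) * ⟪ζ', z⟫_ℂ ^ k) := by
      have h1 : Continuous (fun z : EuclideanSpace ℂ (Fin n) => ⟪ζ, z⟫_ℂ ^ j) := by fun_prop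
      have h2 : Continuous (fun z : EuclideanSpace ℂ (Fin n) => ⟪ζ', z⟫_ℂ ^ k) := by fun_prop
      exact (Complex.continuous_conj.comp h1).mul h2
    have h1 : I = ∫ z, conj (⟪ζ, c • z⟫_ℂ ^ j) * ⟪ζ', c • z⟫_ℂ ^ k ∂σ := by
      conv_lhs => rw [hI, ← hinv c hc1]
      rw [integral_map (by fun_prop) hcont.aestronglyMeasurable]
    have h2 : I = -I := by
      conv_lhs => rw [h1]
      rw [hI, ← integral_neg]
      refine integral_congr_ae (Eventually.of_forall (fun z => ?_))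
      simp only
      rw [inner_smul_right, inner_smul_right, mul_pow, mul_pow, map_mul, map_pow]
      calc conj c ^ j * conj (⟪ζ, z⟫_ℂ ^ j) * (c ^ k * ⟪ζ', z⟫_ℂ ^ k)
          = (conj c ^ j * c ^ k) * (conj (⟪ζ, z⟫_ℂ ^ j) * ⟪ζ', z⟫_ℂ ^ k) := by ring
        _ = -(conj (⟪ζ, z⟫_ℂ ^ j) * ⟪ζ', z⟫_ℂ ^ k) := by rw [hcjk]; ring
    have h3 : (2 : ℂ) * I = 0 := by
      calc (2 : ℂ) * I = I + I := by ring
        _ = I + -I := by rw [← h2]
        _ = 0 := by ring
    simpa using h3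
  -- general case: induct on F
  have hFc := PolyLE.cont hF
  refine Submodule.span_induction (p := fun g _ => ∫ z, conj (F z) * g z ∂σ = 0) ?_ ?_ ?_ ?_ hG
  · rintro g ⟨ζ', k, hk, rfl⟩
    refine Submodule.span_induction
      (p := fun f _ => ∫ z, conj (f z) * ⟪ζ', z⟫_ℂ ^ k ∂σ = 0) ?_ ?_ ?_ ?_ hF
    · rintro f ⟨ζ, j, hj, rfl⟩
      exact key ζ ζ' j k (lt_of_le_of_lt hj hk)
    · simp
    · intro f g hf hg h1 h2
      have hfc : Continuous f := PolyLE.cont hf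
      have hgc : Continuous g := PolyLE.cont hg
      have h3 : Continuous (fun z : EuclideanSpace ℂ (Fin n) => ⟪ζ', z⟫_ℂ ^ k) := by fun_prop
      have h4 : (fun z => conj ((f + g) z) * ⟪ζ', z⟫_ℂ ^ k) =
          fun z => conj (f z) * ⟪ζ', z⟫_ℂ ^ k + conj (g z) * ⟪ζ', z⟫_ℂ ^ k := by
        funext z
        simp only [Pi.add_apply, map_add]
        ring
      rw [h4, integral_add, h1, h2, add_zero]
      · exact integrable_cont hS ((Complex.continuous_conj.comp hfc).mul h3)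
      · exact integrable_cont hS ((Complex.continuous_conj.comp hgc).mul h3)
    · intro a f hf h1
      have h4 : (fun z => conj ((a • f) z) * ⟪ζ', z⟫_ℂ ^ k) =
          fun z => conj a * (conj (f z) * ⟪ζ', z⟫_ℂ ^ k) := by
        funext z
        simp only [Pi.smul_apply, smul_eq_mul, map_mul]
        ring
      rw [h4, integral_const_mul, h1, mul_zero]
  · simp
  · intro f g hf hg h1 h2
    have hfc : Continuous f := PolyGT.cont hf
    have hgc : Continuous g := PolyGT.cont hg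
    have h4 : (fun z => conj (F z) * (f + g) z) =
        fun z => conj (F z) * f z + conj (F z) * g z := by
      funext z
      simp only [Pi.add_apply]
      ring
    rw [h4, integral_add, h1, h2, add_zero]
    · exact integrable_cont hS ((Complex.continuous_conj.comp hFc).mul hfc)
    · exact integrable_cont hS ((Complex.continuous_conj.comp hFc).mul hgc)
  · intro a f hf h1
    have h4 : (fun z => conj (F z) * (a • f) z) =
        fun z => a * (conj (F z) * f z) := by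
      funext z
      simp only [Pi.smul_apply, smul_eq_mul]
      ring
    rw [h4, integral_const_mul, h1, mul_zero]

/-- Pythagoras. -/
lemma integral_sq_add (hS : ∀ᵐ z ∂σ, ‖z‖ = 1)
    (hinv : ∀ c : ℂ, ‖c‖ = 1 → Measure.map (fun z => c • z) σ = σ)
    {D D' : ℕ} {F G : EuclideanSpace ℂ (Fin n) → ℂ} (hF : F ∈ PolyLE n D) (hG : G ∈ PolyGT n D)
    (hG' : G ∈ PolyLE n D') (δ : ℝ) :
    ∫ z, ‖F z + (δ : ℂ) * G z‖ ^ 2 ∂σ = ∫ z, ‖F z‖ ^ 2 ∂σ + δ ^ 2 * ∫ z, ‖G z‖ ^ 2 ∂σ := by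
  have hFc := PolyLE.cont hF
  have hGc := PolyLE.cont hG'
  have h0 := orth hS hinv hF hG
  have h1 : ∫ z, (conj (F z) * G z).re ∂σ = 0 := by
    have hint : Integrable (fun z => conj (F z) * G z) σ :=
      integrable_cont hS ((Complex.continuous_conj.comp hFc).mul hGc)
    have := integral_re (𝕜 := ℂ) hint
    simp only [RCLike.re_eq_complex_re] at this
    rw [this, h0]
    simp
  have h2 : ∀ z, ‖F z + (δ : ℂ) * G z‖ ^ 2
      = ‖F z‖ ^ 2 + 2 * δ * (conj (F z) * G z).re + δ ^ 2 * ‖G z‖ ^ 2 := by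
    intro z
    rw [Complex.sq_norm, Complex.sq_norm, Complex.sq_norm]
    simp only [Complex.normSq_apply, Complex.add_re, Complex.add_im, Complex.mul_re,
      Complex.mul_im, Complex.ofReal_re, Complex.ofReal_im, Complex.conj_re, Complex.conj_im]
    ring
  simp_rw [h2]
  rw [integral_add, integral_add, integral_const_mul, integral_const_mul, h1]
  · ring
  · exact integrable_cont hS (by fun_prop)
  · refine Integrable.const_mul ?_ _
    exact integrable_cont hS (Complex.continuous_re.comp ((Complex.continuous_conj.comp hFc).mul hGc))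
  · exact integrable_cont hS (by fun_prop)
  · exact integrable_cont hS (by fun_prop)

end orth

end Pool.Agent.Work.MP_28e115_an
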