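import Mathlib

set_option autoImplicit false

namespace Pool.Agent.Work.MP_28e115_an

section cells

/-- product of summable nonnegative functions over `Fin n → α` -/
lemma summable_pi_prod {α : Type*} (n : ℕ) (f : α → ℝ) (hf : ∀ a, 0 ≤ f a)
    (hs : Summable f) : Summable (fun c : Fin n → α => ∏ i, f (c i)) := by
  classical
  apply summable_of_sum_le (c := (∑' a, f a) ^ n)
  · intro c
    exact Finset.prod_nonneg (fun i _ => hf _)
  · intro s
    let t : Finset α := s.biUnion (fun c => Finset.univ.image c)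
    have hst : s ⊆ Fintype.piFinset (fun _ : Fin n => t) := by
      intro c hc
      rw [Fintype.mem_piFinset]
      intro i
      simp only [t, Finset.mem_biUnion, Finset.mem_image, Finset.mem_univ, true_and]
      exact ⟨c, hc, i, rfl⟩
    calc ∑ c ∈ s, ∏ i, f (c i) ≤ ∑ c ∈ Fintype.piFinset (fun _ : Fin n => t), ∏ i, f (c i) :=
          Finset.sum_le_sum_of_subset_of_nonneg hst
            (fun c _ _ => Finset.prod_nonneg (fun i _ => hf _))
      _ = ∏ _i : Fin n, ∑ a ∈ t, f a := by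
          rw [Finset.prod_univ_sum]
      _ = (∑ a ∈ t, f a) ^ n := by simp
      _ ≤ (∑' a, f a) ^ n := by
          gcongr
          · exact Finset.sum_nonneg (fun a _ => hf a)
          · exact hs.sum_le_tsum t (fun a _ => hf a)

lemma summable_int_exp (t : ℝ) (ht : 0 < t) : Summable (fun a : ℤ => Real.exp (-(t * ‖a‖))) := by
  have h1 : Summable (fun k : ℕ => Real.exp (-(t * (k : ℝ)))) := by
    have := Real.summable_exp_nat_mul_iff.mpr (show -t < 0 by linarith)
    refine this.congr (fun k => ?_)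
    congr 1; ring
  apply Summable.of_nat_of_neg
  · refine h1.congr (fun k => ?_)
    simp
  · refine h1.congr (fun k => ?_)
    simp

/-- The exponential of minus the sup norm is summable over the lattice. -/
lemma summable_lattice (n : ℕ) (t : ℝ) (ht : 0 < t) :
    Summable (fun c : Fin n → ℤ × ℤ => Real.exp (-(t * ‖c‖))) := by
  rcases Nat.eq_zero_or_pos n with hn | hn
  · subst hn
    exact Summable.of_finite
  have hn' : (0 : ℝ) < n := by exact_mod_cast hn
  set s : ℝ := t / (2 * n) with hs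
  have hs0 : 0 < s := by positivity
  have h1 : Summable (fun a : ℤ × ℤ => Real.exp (-(s * ‖a.1‖)) * Real.exp (-(s * ‖a.2‖))) :=
    Summable.mul_of_nonneg (summable_int_exp s hs0) (summable_int_exp s hs0)
      (fun _ => (Real.exp_pos _).le) (fun _ => (Real.exp_pos _).le)
  have h2 := summable_pi_prod n _ (fun a => by positivity) h1
  refine Summable.of_nonneg_of_le (fun c => (Real.exp_pos _).le) (fun c => ?_) h2
  have h3 : ∏ i, (Real.exp (-(s * ‖(c i).1‖)) * Real.exp (-(s * ‖(c i).2‖)))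
      = Real.exp (∑ i, (-(s * ‖(c i).1‖) + -(s * ‖(c i).2‖))) := by
    rw [Real.exp_sum]
    refine Finset.prod_congr rfl (fun i _ => ?_)
    rw [Real.exp_add]
  rw [h3]
  apply Real.exp_le_exp.mpr
  have h4 : ∀ i, -(s * ‖c‖) + -(s * ‖c‖) ≤ -(s * ‖(c i).1‖) + -(s * ‖(c i).2‖) := by
    intro i
    have h5 : ‖c i‖ ≤ ‖c‖ := norm_le_pi_norm c i
    have h6 : ‖(c i).1‖ ≤ ‖c i‖ := norm_fst_le _
    have h7 : ‖(c i).2‖ ≤ ‖c i‖ := norm_snd_le _
    nlinarith
  calc -(t * ‖c‖) = ∑ _i : Fin n, (-(s * ‖c‖) + -(s * ‖c‖)) := by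
        rw [Finset.sum_const, Finset.card_univ, Fintype.card_fin, nsmul_eq_mul, hs]
        field_simp
        ring
    _ ≤ _ := Finset.sum_le_sum (fun i _ => h4 i)

/-- cell index -/
noncomputable def cell {n : ℕ} (r : ℝ) (z : EuclideanSpace ℂ (Fin n)) : Fin n → ℤ × ℤ :=
  fun i => (⌊(z i).re / r⌋, ⌊(z i).im / r⌋)

lemma floor_dist (a b : ℝ) : ‖⌊a⌋ - ⌊b⌋‖ ≤ |a - b| + 1 := by
  have h1 := Int.floor_le a
  have h2 := Int.lt_floor_add_one a
  have h3 := Int.floor_le b
  have h4 := Int.lt_floor_add_one b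
  rw [Int.norm_eq_abs]
  push_cast
  rw [abs_le]
  constructor
  · have := neg_abs_le (a - b); linarith
  · have := le_abs_self (a - b); linarith

lemma cell_dist {n : ℕ} {r : ℝ} (hr : 0 < r) (z w : EuclideanSpace ℂ (Fin n)) :
    ‖cell r z - cell r w‖ ≤ ‖z - w‖ / r + 1 := by
  have h0 : 0 ≤ ‖z - w‖ / r + 1 := by positivity
  rw [pi_norm_le_iff_of_nonneg h0]
  intro i
  have hi : ‖(z - w) i‖ ≤ ‖z - w‖ := PiLp.norm_apply_le (z - w) i
  have hre : |(z i).re - (w i).re| ≤ ‖z - w‖ := by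
    have := Complex.abs_re_le_norm ((z - w) i)
    simp only [PiLp.sub_apply, Complex.sub_re] at this hi
    linarith
  have him : |(z i).im - (w i).im| ≤ ‖z - w‖ := by
    have := Complex.abs_im_le_norm ((z - w) i)
    simp only [PiLp.sub_apply, Complex.sub_im] at this hi
    linarith
  have key : ∀ a b : ℝ, |a - b| ≤ ‖z - w‖ → ‖⌊a / r⌋ - ⌊b / r⌋‖ ≤ ‖z - w‖ / r + 1 := by
    intro a b hab
    have h1 := floor_dist (a / r) (b / r)
    have h2 : |a / r - b / r| ≤ ‖z - w‖ / r := by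
      rw [← sub_div, abs_div, abs_of_pos hr]
      gcongr
    linarith
  simp only [cell, Pi.sub_apply, Prod.norm_def, Prod.fst_sub, Prod.snd_sub]
  exact max_le (key _ _ hre) (key _ _ him)

lemma cell_eq {n : ℕ} {r : ℝ} (hr : 0 < r) (z w : EuclideanSpace ℂ (Fin n))
    (h : cell r z = cell r w) : ‖z - w‖ ^ 2 ≤ 2 * n * r ^ 2 := by
  rw [EuclideanSpace.norm_sq_eq]
  have h1 : ∀ i, ‖(z - w) i‖ ^ 2 ≤ 2 * r ^ 2 := by
    intro i
    have hi := congrFun h i
    simp only [cell, Prod.mk.injEq] at hi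
    have key : ∀ a b : ℝ, ⌊a / r⌋ = ⌊b / r⌋ → (a - b) ^ 2 ≤ r ^ 2 := by
      intro a b hab
      have h2 := Int.abs_sub_lt_one_of_floor_eq_floor hab
      rw [← sub_div, abs_div, abs_of_pos hr, div_lt_one hr] at h2
      rw [← sq_abs]
      have := abs_nonneg (a - b)
      gcongr
    have h3 := key _ _ hi.1
    have h4 := key _ _ hi.2
    rw [Complex.sq_norm, Complex.normSq_apply]
    simp only [PiLp.sub_apply, Complex.sub_re, Complex.sub_im]
    nlinarith
  calc ∑ i, ‖(z - w) i‖ ^ 2 ≤ ∑ _i : Fin n, 2 * r ^ 2 := Finset.sum_le_sum (fun i _ => h1 i)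
    _ = 2 * n * r ^ 2 := by
      rw [Finset.sum_const, Finset.card_univ, Fintype.card_fin, nsmul_eq_mul]; ring

/-- colour of a lattice point -/
def color (n L : ℕ) (c : Fin n → ℤ × ℤ) : Fin n → ZMod L × ZMod L :=
  fun i => (((c i).1 : ZMod L), ((c i).2 : ZMod L))

lemma color_sep (n L : ℕ) (c c' : Fin n → ℤ × ℤ) (h : color n L c = color n L c')
    (hne : c ≠ c') : (L : ℝ) ≤ ‖c - c'‖ := by
  have key : ∀ a b : ℤ, (a : ZMod L) = (b : ZMod L) → a ≠ b → (L : ℝ) ≤ ‖a - b‖ := by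
    intro a b hab hne
    have h1 : (L : ℤ) ∣ a - b := by
      have := (ZMod.intCast_eq_intCast_iff_dvd_sub b a L).mp hab.symm
      exact this
    have h2 : (L : ℤ) ≤ |a - b| := by
      apply Int.le_of_dvd
      · exact abs_pos.mpr (sub_ne_zero.mpr hne)
      · exact (dvd_abs _ _).mpr h1
    rw [Int.norm_eq_abs]
    exact_mod_cast h2
  obtain ⟨i, hi⟩ := Function.ne_iff.mp hne
  have hci := congrFun h i
  simp only [color, Prod.mk.injEq] at hci
  have h5 : ‖(c - c') i‖ ≤ ‖c - c'‖ := norm_le_pi_norm (c - c') i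
  refine le_trans ?_ h5
  rw [Pi.sub_apply]
  by_cases h1 : (c i).1 = (c' i).1
  · have h2 : (c i).2 ≠ (c' i).2 := fun h2 => hi (Prod.ext h1 h2)
    exact (key _ _ hci.2 h2).trans (norm_snd_le (c i - c' i))
  · exact (key _ _ hci.1 h1).trans (norm_fst_le (c i - c' i))

end cells

end Pool.Agent.Work.MP_28e115_an
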