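import Pool.Agent.Work.MP_28e115_an.Phase

set_option autoImplicit false

open Metric Set MeasureTheory Filter Topology
open scoped InnerProductSpace ENNReal ComplexConjugate

namespace Pool.Agent.Work.MP_28e115_an

section glue

variable {n : ℕ} {σ : Measure (EuclideanSpace ℂ (Fin n))} [IsFiniteMeasure σ]

lemma inv_all (hS : ∀ᵐ z ∂σ, ‖z‖ = 1)
    (hinv : ∀ c : ℂ, ‖c‖ = 1 → Measure.map (fun z => c • z) σ = σ)
    (C : ℝ) (K : ℕ) (hC : 0 < C) (hK : 0 < K) (hstep : StepProp n σ C K)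
    (δ η N' : ℝ) (hδ : 0 < δ) (hδ1 : δ ≤ 1) (hδC : 2 * δ * C ≤ 1) (hη : 0 < η) (hη1 : η ≤ 1)
    (hN' : 0 ≤ N') (L : ℕ) : ∀ k, k ≤ L → Inv n σ C K δ η N' L k := by
  intro k
  induction k with
  | zero =>
    intro _
    refine ⟨0, fun _ => 0, 0, fun _ => 0, 0, Submodule.zero_mem _, continuous_const,
      fun _ => le_refl _, monotone_const, fun _ => ⟨le_refl _, zero_lt_one⟩, ?_, ?_, ?_, ?_⟩
    · intro w _
      simp
    · simp
    · intro z _
      simp [PS]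
    · have h1 : min 0 (N' + δ * (C + 1)) = 0 := min_eq_left (by positivity)
      simp [h1]
  | succ k ih =>
    intro hk
    exact inv_step hS hinv C K hC hK hstep δ η N' hδ hδ1 hδC hη hη1 L k (by omega) (ih (by omega))

lemma phase (hn : 1 ≤ n) (hS : ∀ᵐ z ∂σ, ‖z‖ = 1)
    (hinv : ∀ c : ℂ, ‖c‖ = 1 → Measure.map (fun z => c • z) σ = σ)
    (N : ℝ) (hN : 0 ≤ N) (ε : ℝ) (hε : 0 < ε) :
    ∃ (F : EuclideanSpace ℂ (Fin n) → ℂ) (D l : ℕ) (u : ℕ → ℝ), F ∈ PolyLE n D ∧ Monotone u ∧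
      (∀ i, u i ∈ Ico (0 : ℝ) 1) ∧ (∀ w, ‖w‖ ≤ 1 → ‖F w‖ ≤ 2) ∧
      σ.real {z | ‖z‖ = 1 ∧ PS u l F z ≤ N} ≤ ε := by
  obtain ⟨C, K, hC, hK, hstep⟩ := step_int (σ := σ) hn hS
  set V : ℝ := σ.real univ with hV
  have hV0 : 0 ≤ V := measureReal_nonneg
  have hK0 : (0 : ℝ) < K := by exact_mod_cast hK
  set W : ℝ := (C + 1) ^ 2 * V with hW
  have hW0 : 0 ≤ W := by positivity
  set τ : ℝ := ε / (4 * (W + 1)) with hτ
  have hτ0 : 0 < τ := by positivity
  have hτW : τ * W ≤ ε / 4 := by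
    have : τ * (4 * (W + 1)) = ε := by rw [hτ]; field_simp
    nlinarith
  set B : ℝ := 2 * K * ((N + 1 + (C + 1)) * V) with hB
  have hB0 : 0 ≤ B := by positivity
  -- choose L
  have hlim1 : Tendsto (fun L : ℕ => Real.sqrt (τ / L)) atTop (𝓝 0) := by
    have h1 : Tendsto (fun L : ℕ => τ / (L : ℝ)) atTop (𝓝 0) :=
      tendsto_const_nhds.div_atTop tendsto_natCast_atTop_atTop
    have h2 := (Real.continuous_sqrt.tendsto 0).comp h1
    rwa [Real.sqrt_zero] at h2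
  have hlim2 : Tendsto (fun L : ℕ => Real.sqrt (τ * L)) atTop atTop := by
    have h1 : Tendsto (fun L : ℕ => τ * (L : ℝ)) atTop atTop :=
      Tendsto.const_mul_atTop hτ0 tendsto_natCast_atTop_atTop
    exact Real.tendsto_sqrt_atTop.comp h1
  obtain ⟨L, hL1, hLδ1, hLδC, hLB⟩ : ∃ L : ℕ, 1 ≤ L ∧ Real.sqrt (τ / L) ≤ 1 ∧
      Real.sqrt (τ / L) ≤ 1 / (2 * C) ∧ (B + 1) * 4 / ε ≤ Real.sqrt (τ * L) := by
    have h1 : ∀ᶠ L : ℕ in atTop, 1 ≤ L := eventually_ge_atTop 1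
    have h2 : ∀ᶠ L : ℕ in atTop, Real.sqrt (τ / L) ≤ 1 :=
      (hlim1.eventually_lt_const zero_lt_one).mono (fun _ h => h.le)
    have h3 : ∀ᶠ L : ℕ in atTop, Real.sqrt (τ / L) ≤ 1 / (2 * C) :=
      (hlim1.eventually_lt_const (by positivity)).mono (fun _ h => h.le)
    have h4 : ∀ᶠ L : ℕ in atTop, (B + 1) * 4 / ε ≤ Real.sqrt (τ * L) :=
      hlim2.eventually_ge_atTop _
    obtain ⟨L, hL⟩ := (h1.and (h2.and (h3.and h4))).exists
    exact ⟨L, hL.1, hL.2.1, hL.2.2.1, hL.2.2.2⟩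
  have hL0 : (0 : ℝ) < L := by exact_mod_cast hL1
  set δ : ℝ := Real.sqrt (τ / L) with hδ
  have hδ0 : 0 < δ := Real.sqrt_pos.mpr (by positivity)
  have hδ2 : δ ^ 2 = τ / L := Real.sq_sqrt (by positivity)
  have hLδ : L * δ = Real.sqrt (τ * L) := by
    have h1 : Real.sqrt (τ * L) = Real.sqrt ((L * δ) ^ 2) := by
      congr 1
      rw [mul_pow, hδ2]
      field_simp
    rw [h1, Real.sqrt_sq (by positivity)]
  have hLδ2 : L * δ ^ 2 = τ := by rw [hδ2]; field_simp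
  set η : ℝ := min (1 / L) (ε / (8 * K * (V + 1))) with hη
  have hη0 : 0 < η := lt_min (by positivity) (by positivity)
  have hηL : L * η ≤ 1 := by
    have : η ≤ 1 / L := min_le_left _ _
    calc L * η ≤ L * (1 / L) := by gcongr
      _ = 1 := by field_simp
  have hη1 : η ≤ 1 := by
    have hL1' : (1 : ℝ) ≤ L := by exact_mod_cast hL1
    nlinarith
  have hηV : 2 * K * (η * V) ≤ ε / 4 := by
    have h1 : η ≤ ε / (8 * K * (V + 1)) := min_le_right _ _
    have h2 : 2 * K * (η * (V + 1)) ≤ 2 * K * (ε / (8 * K * (V + 1)) * (V + 1)) := by gcongr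
    have h3 : 2 * K * (ε / (8 * K * (V + 1)) * (V + 1)) = ε / 4 := by
      field_simp
      norm_num
    have h4 : 2 * K * (η * V) ≤ 2 * K * (η * (V + 1)) := by
      gcongr
      linarith
    linarith
  have hδC : 2 * δ * C ≤ 1 := by
    calc 2 * δ * C ≤ 2 * (1 / (2 * C)) * C := by gcongr
      _ = 1 := by field_simp
  obtain ⟨F, T, l, u, D, hF, hTc, hT0, hu, hu1, hFb, _, hPS, hI⟩ :=
    inv_all hS hinv C K hC hK hstep δ η (N + 1) hδ0 hLδ1 hδC hη0 hη1 (by linarith) L L le_rfl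
  refine ⟨F, D, l, u, hF, hu, hu1, ?_, ?_⟩
  · intro w hw
    have h1 := hFb w hw
    have h2 : L * (δ * η) ≤ 1 := by
      calc L * (δ * η) = (L * η) * δ := by ring
        _ ≤ 1 * 1 := by gcongr
        _ = 1 := by norm_num
    linarith
  · set s : ℝ := σ.real {z | T z ≤ N + 1} with hs
    have h1 : σ.real {z | ‖z‖ = 1 ∧ PS u l F z ≤ N} ≤ s := by
      refine measureReal_mono ?_ (measure_ne_top _ _)
      rintro z ⟨hz1, hz2⟩
      have := hPS z hz1
      change T z ≤ N + 1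
      linarith
    refine h1.trans ?_
    -- upper bound for the integral
    have h2 : ∫ z, min (T z) (N + 1 + δ * (C + 1)) ∂σ ≤ (N + 1 + (C + 1)) * V := by
      have h3 : ∫ z, min (T z) (N + 1 + δ * (C + 1)) ∂σ ≤ ∫ _z, (N + 1 + (C + 1)) ∂σ := by
        refine integral_mono (integrable_cont hS (by fun_prop)) (integrable_const _) ?_
        intro z
        refine (min_le_right _ _).trans ?_
        have : δ * (C + 1) ≤ 1 * (C + 1) := by gcongr
        simp only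
        linarith
      rw [integral_const, smul_eq_mul] at h3
      rw [mul_comm (N + 1 + (C + 1)) V]
      exact h3
    have h3 := hI.trans h2
    set a : ℝ := L * δ with ha
    have ha0 : 0 < a := by positivity
    have h4 : (L : ℝ) * (δ ^ 2 * (C + 1) ^ 2 * V) = τ * W := by
      rw [hW, ← hLδ2]; ring
    rw [h4] at h3
    have h5 : a * ((1 / (2 * K)) * (s - τ * W) - η * V) ≤ (N + 1 + (C + 1)) * V := by
      calc a * ((1 / (2 * K)) * (s - τ * W) - η * V)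
          = L * (δ * (1 / (2 * K) * (s - τ * W)) - δ * (η * V)) := by rw [ha]; ring
        _ ≤ _ := h3
    -- multiply by 2K / a
    have h6 : a * (s - τ * W - 2 * K * (η * V)) ≤ B := by
      have h7 : a * (s - τ * W - 2 * K * (η * V)) =
          (2 * K) * (a * ((1 / (2 * K)) * (s - τ * W) - η * V)) := by
        field_simp
      rw [h7, hB]
      gcongr
    have h8 : (B + 1) * 4 ≤ a * ε := by
      have h9 : (B + 1) * 4 / ε ≤ a := by rw [hLδ]; exact hLB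
      rwa [div_le_iff₀ hε] at h9
    by_contra hcon
    have hcon := not_le.mp hcon
    have h10 : ε / 4 < s - τ * W - 2 * K * (η * V) := by linarith
    have h11 : a * (ε / 4) < a * (s - τ * W - 2 * K * (η * V)) := by gcongr
    linarith

lemma phase' (hn : 1 ≤ n) (hS : ∀ᵐ z ∂σ, ‖z‖ = 1)
    (hinv : ∀ c : ℂ, ‖c‖ = 1 → Measure.map (fun z => c • z) σ = σ)
    (N : ℝ) (hN : 0 ≤ N) (ε : ℝ) (hε : 0 < ε) :
    ∃ (F : EuclideanSpace ℂ (Fin n) → ℂ) (D l : ℕ) (u : ℕ → ℝ), F ∈ PolyLE n D ∧ Monotone u ∧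
      (∀ i, u i ∈ Ico (0 : ℝ) 1) ∧ (∀ w, ‖w‖ ≤ 1 → ‖F w‖ ≤ ε) ∧
      σ.real {z | ‖z‖ = 1 ∧ PS u l F z ≤ N} ≤ ε := by
  obtain ⟨F, D, l, u, hF, hu, hu1, hFb, hm⟩ :=
    phase hn hS hinv (2 * N / ε) (by positivity) ε hε
  have hnε : ‖((ε / 2 : ℝ) : ℂ)‖ = ε / 2 := by
    rw [Complex.norm_real, Real.norm_of_nonneg (by positivity)]
  refine ⟨((ε / 2 : ℝ) : ℂ) • F, D, l, u, Submodule.smul_mem _ _ hF, hu, hu1, ?_, ?_⟩
  · intro w hw
    have := hFb w hw
    rw [Pi.smul_apply, norm_smul, hnε]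
    nlinarith
  · refine le_trans (le_of_eq ?_) hm
    congr 1
    ext z
    constructor
    · rintro ⟨h1, h2⟩
      refine ⟨h1, ?_⟩
      rw [PS_smul, hnε] at h2
      rw [le_div_iff₀ hε]
      linarith
    · rintro ⟨h1, h2⟩
      refine ⟨h1, ?_⟩
      rw [PS_smul, hnε]
      rw [le_div_iff₀ hε] at h2
      linarith

/-- Uniformly summable series of entire functions on the unit ball. -/
lemma differentiableOn_series {F : ℕ → EuclideanSpace ℂ (Fin n) → ℂ} {b : ℕ → ℝ}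
    (hF : ∀ q, Differentiable ℂ (F q)) (hb : Summable b) (hb0 : ∀ q, 0 < b q)
    (hFb : ∀ q w, ‖w‖ ≤ 1 → ‖F q w‖ ≤ b q) :
    DifferentiableOn ℂ (fun w => ∑' q, F q w) (ball 0 1) := by
  intro w hw
  have hw1 : ‖w‖ < 1 := mem_ball_zero_iff.mp hw
  obtain ⟨r, hr1, hr2⟩ := exists_between hw1
  have hr0 : 0 < r := (norm_nonneg w).trans_lt hr1
  have hwr : w ∈ ball (0 : EuclideanSpace ℂ (Fin n)) r := mem_ball_zero_iff.mpr hr1
  have hder : ∀ q, ∀ x ∈ ball (0 : EuclideanSpace ℂ (Fin n)) r,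
      ‖fderiv ℂ (F q) x‖ ≤ 3 * b q / (1 - r) := by
    intro q x hx
    have hx1 : ‖x‖ < r := mem_ball_zero_iff.mp hx
    have hr' : 0 < 1 - r := by linarith
    refine Complex.norm_fderiv_le_div_of_mapsTo_ball (R₁ := 1 - r) (R₂ := 3 * b q)
      (hF q).differentiableOn ?_ hr'
    intro y hy
    have hy1 : ‖y‖ ≤ 1 := by
      have h1 : ‖y - x‖ < 1 - r := by rwa [mem_ball, dist_eq_norm] at hy
      have h2 : ‖y‖ ≤ ‖y - x‖ + ‖x‖ := by
        calc ‖y‖ = ‖(y - x) + x‖ := by rw [sub_add_cancel]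
          _ ≤ _ := norm_add_le _ _
      linarith
    rw [mem_closedBall, dist_eq_norm]
    have h3 := norm_sub_le (F q y) (F q x)
    have h4 := hFb q y hy1
    have h5 := hFb q x (by linarith)
    have h6 := hb0 q
    linarith
  have hsum : Summable (fun q => 3 * b q / (1 - r)) := by
    exact (hb.mul_left 3).div_const _
  have hsw : Summable (fun q => F q (0 : EuclideanSpace ℂ (Fin n))) := by
    refine Summable.of_norm_bounded hb (fun q => hFb q 0 (by simp))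
  have h := hasFDerivAt_tsum_of_isPreconnected (𝕜 := ℂ) hsum isOpen_ball
    (convex_ball (0 : EuclideanSpace ℂ (Fin n)) r).isPreconnected
    (fun q x _ => (hF q x).hasFDerivAt) hder (mem_ball_self hr0) hsw hwr
  exact h.differentiableAt.differentiableWithinAt

theorem exists_f (hn : 1 ≤ n) (hS : ∀ᵐ z ∂σ, ‖z‖ = 1)
    (hinv : ∀ c : ℂ, ‖c‖ = 1 → Measure.map (fun z => c • z) σ = σ) :
    ∃ f : EuclideanSpace ℂ (Fin n) → ℂ, DifferentiableOn ℂ f (ball 0 1) ∧
      (∀ w, ‖w‖ ≤ 1 → ‖f w‖ ≤ 1) ∧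
      ∀ᵐ z ∂σ, ∀ M : ℝ, ∃ (u : ℕ → ℝ) (l : ℕ), Monotone u ∧ (∀ i, u i ∈ Ico (0 : ℝ) 1) ∧
        M ≤ PS u l f z := by
  classical
  -- one step of the recursion
  have hnext : ∀ (p : ℕ) (G : EuclideanSpace ℂ (Fin n) → ℂ) (Λ : ℕ), (∃ D, G ∈ PolyLE n D) →
      ∃ (F : EuclideanSpace ℂ (Fin n) → ℂ) (l : ℕ) (u : ℕ → ℝ), (∃ D, F ∈ PolyLE n D) ∧
        Monotone u ∧ (∀ i, u i ∈ Ico (0 : ℝ) 1) ∧
        (∀ w, ‖w‖ ≤ 1 → ‖F w‖ ≤ (1 / 2) ^ (p + 2) / (Λ + 1)) ∧
        σ.real {z | ‖z‖ = 1 ∧ PS u l F z ≤ PS u l G z + (p + 2)} ≤ (1 / 2) ^ (p + 2) := by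
    rintro p G Λ ⟨D, hG⟩
    obtain ⟨Kv, hKv⟩ := PolyLE.bddvar hG
    obtain ⟨F, D', l, u, hF, hu, hu1, hFb, hm⟩ := phase' hn hS hinv (|Kv| + (p + 2))
      (by positivity) ((1 / 2) ^ (p + 2) / (Λ + 1)) (by positivity)
    refine ⟨F, l, u, ⟨D', hF⟩, hu, hu1, hFb, ?_⟩
    have h1 : ((1 : ℝ) / 2) ^ (p + 2) / (Λ + 1) ≤ (1 / 2) ^ (p + 2) := by
      apply div_le_self (by positivity)
      have : (0 : ℝ) ≤ Λ := Nat.cast_nonneg Λ
      linarith
    refine le_trans (measureReal_mono ?_ (measure_ne_top _ _)) (hm.trans h1)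
    rintro z ⟨hz1, hz2⟩
    refine ⟨hz1, hz2.trans ?_⟩
    have := hKv z hz1 u l hu hu1
    have h2 := le_abs_self Kv
    linarith
  choose! Fn ln un hFn hun hun1 hFnb hFnm using hnext
  -- the recursion
  let st : ℕ → (EuclideanSpace ℂ (Fin n) → ℂ) × ℕ := fun p =>
    Nat.rec (0, 0) (fun p x => (x.1 + Fn p x.1 x.2, max x.2 (ln p x.1 x.2))) p
  have hst0 : st 0 = (0, 0) := rfl
  have hst1 : ∀ p, st (p + 1) = ((st p).1 + Fn p (st p).1 (st p).2,
      max (st p).2 (ln p (st p).1 (st p).2)) := fun p => rfl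
  have hpoly : ∀ p, ∃ D, (st p).1 ∈ PolyLE n D := by
    intro p
    induction p with
    | zero => exact ⟨0, by rw [hst0]; exact Submodule.zero_mem _⟩
    | succ p ih =>
      obtain ⟨D1, h1⟩ := ih
      obtain ⟨D2, h2⟩ := hFn p (st p).1 (st p).2 ⟨D1, h1⟩
      rw [hst1]
      exact ⟨max D1 D2, Submodule.add_mem _ (PolyLE.mono (le_max_left _ _) h1)
        (PolyLE.mono (le_max_right _ _) h2)⟩
  set G : ℕ → EuclideanSpace ℂ (Fin n) → ℂ := fun p => (st p).1 with hG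
  set Λ : ℕ → ℕ := fun p => (st p).2 with hΛ
  set F : ℕ → EuclideanSpace ℂ (Fin n) → ℂ := fun p => Fn p (G p) (Λ p) with hF
  set l : ℕ → ℕ := fun p => ln p (G p) (Λ p) with hl
  set u : ℕ → ℕ → ℝ := fun p => un p (G p) (Λ p) with hu
  have hG0 : G 0 = 0 := rfl
  have hG1 : ∀ p, G (p + 1) = G p + F p := fun p => rfl
  have hΛ1 : ∀ p, Λ (p + 1) = max (Λ p) (l p) := fun p => rfl
  have hGsum : ∀ p, G p = ∑ q ∈ Finset.range p, F q := by
    intro p
    induction p with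
    | zero => rw [hG0, Finset.sum_range_zero]
    | succ p ih => rw [hG1, Finset.sum_range_succ, ih]
  have hΛmono : Monotone Λ := monotone_nat_of_le_succ (fun p => by
    rw [hΛ1]; exact le_max_left _ _)
  have hlΛ : ∀ p q, p < q → l p ≤ Λ q := by
    intro p q hpq
    have h1 : l p ≤ Λ (p + 1) := by rw [hΛ1]; exact le_max_right _ _
    exact h1.trans (hΛmono hpq)
  have hFb : ∀ q w, ‖w‖ ≤ 1 → ‖F q w‖ ≤ (1 / 2) ^ (q + 2) / (Λ q + 1) :=
    fun q w hw => hFnb q (G q) (Λ q) (hpoly q) w hw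
  have hFb' : ∀ q w, ‖w‖ ≤ 1 → ‖F q w‖ ≤ (1 / 2) ^ (q + 2) := by
    intro q w hw
    refine (hFb q w hw).trans ?_
    apply div_le_self (by positivity)
    have : (0 : ℝ) ≤ Λ q := Nat.cast_nonneg _
    linarith
  have hgeo : Summable (fun q : ℕ => ((1 : ℝ) / 2) ^ (q + 2)) := by
    have := (summable_geometric_of_lt_one (r := (1 : ℝ) / 2) (by norm_num) (by norm_num)).mul_right
      ((1 / 2 : ℝ) ^ 2)
    refine this.congr (fun q => ?_)
    rw [pow_add]
  have hgeo' : ∑' q : ℕ, ((1 : ℝ) / 2) ^ (q + 2) = 1 / 2 := by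
    have h1 : ∀ q : ℕ, ((1 : ℝ) / 2) ^ (q + 2) = (1 / 2) ^ q * (1 / 2) ^ 2 := fun q => pow_add _ _ _
    rw [tsum_congr h1, tsum_mul_right, tsum_geometric_of_lt_one (by norm_num) (by norm_num)]
    norm_num
  have hFdiff : ∀ q, Differentiable ℂ (F q) := by
    intro q
    obtain ⟨D, hD⟩ := hFn q (G q) (Λ q) (hpoly q)
    exact PolyLE.diff hD
  have hsummable : ∀ w : EuclideanSpace ℂ (Fin n), ‖w‖ ≤ 1 → Summable (fun q => F q w) :=
    fun w hw => Summable.of_norm_bounded hgeo (fun q => hFb' q w hw)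
  refine ⟨fun w => ∑' q, F q w, ?_, ?_, ?_⟩
  · exact differentiableOn_series hFdiff hgeo (fun q => by positivity) hFb'
  · intro w hw
    have h1 : ‖∑' q, F q w‖ ≤ ∑' q : ℕ, ((1 : ℝ) / 2) ^ (q + 2) :=
      tsum_of_norm_bounded hgeo.hasSum (fun q => hFb' q w hw)
    rw [hgeo'] at h1
    simp only
    linarith
  · set Bad : ℕ → Set (EuclideanSpace ℂ (Fin n)) := fun p =>
      {z | ‖z‖ = 1 ∧ PS (u p) (l p) (F p) z ≤ PS (u p) (l p) (G p) z + (p + 2)} with hBad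
    have hBadm : ∀ p, σ (Bad p) ≤ ENNReal.ofReal ((1 / 2) ^ (p + 2)) := by
      intro p
      have h1 : σ.real (Bad p) ≤ (1 / 2) ^ (p + 2) := hFnm p (G p) (Λ p) (hpoly p)
      rw [← ofReal_measureReal (measure_ne_top σ (Bad p))]
      exact ENNReal.ofReal_le_ofReal h1
    have hBadsum : ∑' p, σ (Bad p) ≠ ∞ := by
      have h1 : ∑' p, σ (Bad p) ≤ ∑' p : ℕ, ENNReal.ofReal ((1 / 2) ^ (p + 2)) :=
        ENNReal.tsum_le_tsum hBadm
      have h2 : ∑' p : ℕ, ENNReal.ofReal ((1 / 2) ^ (p + 2)) ≠ ∞ := hgeo.tsum_ofReal_ne_top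
      exact ne_top_of_le_ne_top h2 h1
    have hae := ae_eventually_notMem hBadsum
    filter_upwards [hae, hS] with z hz hz1 M
    obtain ⟨P, hP⟩ := eventually_atTop.mp hz
    obtain ⟨Q, hQ⟩ := exists_nat_ge M
    set p := max P Q with hp
    have hzp := hP p (le_max_left _ _)
    have hMp : M ≤ p := hQ.trans (by exact_mod_cast le_max_right P Q)
    refine ⟨u p, l p, hun p (G p) (Λ p) (hpoly p), hun1 p (G p) (Λ p) (hpoly p), ?_⟩
    have h1 : PS (u p) (l p) (G p) z + (p + 2) < PS (u p) (l p) (F p) z := by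
      by_contra hcon
      exact hzp ⟨hz1, not_lt.mp hcon⟩
    -- the remainder
    set R : EuclideanSpace ℂ (Fin n) → ℂ := fun w => (∑' q, F q w) - G (p + 1) w with hR
    have hf : (fun w => ∑' q, F q w) = F p + (G p + R) := by
      funext w
      have : G (p + 1) w = G p w + F p w := by rw [hG1]; rfl
      simp only [hR, Pi.add_apply, this]
      ring
    have hRb : ∀ w, ‖w‖ ≤ 1 → ‖R w‖ ≤ 1 / (4 * (l p + 1)) := by
      intro w hw
      have h2 := (hsummable w hw).sum_add_tsum_nat_add (p + 1)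
      have h3 : R w = ∑' q, F (q + (p + 1)) w := by
        simp only [hR]
        rw [← h2, hGsum (p + 1), Finset.sum_apply]
        ring
      rw [h3]
      have hgeo2 : Summable (fun q : ℕ => ((1 : ℝ) / 2) ^ (q + 2) * (1 / (2 * (l p + 1)))) :=
        hgeo.mul_right _
      have h4 : ‖∑' q, F (q + (p + 1)) w‖
          ≤ ∑' q : ℕ, ((1 : ℝ) / 2) ^ (q + 2) * (1 / (2 * (l p + 1))) := by
        refine tsum_of_norm_bounded hgeo2.hasSum (fun q => ?_)
        refine (hFb (q + (p + 1)) w hw).trans ?_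
        have h5 : l p ≤ Λ (q + (p + 1)) := hlΛ p (q + (p + 1)) (by omega)
        have h6 : (l p : ℝ) ≤ Λ (q + (p + 1)) := by exact_mod_cast h5
        have h7 : ((1 : ℝ) / 2) ^ (q + (p + 1) + 2) ≤ (1 / 2) ^ (q + 2) * (1 / 2) := by
          have : q + (p + 1) + 2 = (q + 2) + 1 + p := by ring
          rw [this, pow_add, pow_add, pow_one]
          have h8 : ((1 : ℝ) / 2) ^ p ≤ 1 := pow_le_one₀ (by norm_num) (by norm_num)
          have h9 : (0 : ℝ) ≤ (1 / 2) ^ (q + 2) * (1 / 2) := by positivity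
          nlinarith
        calc ((1 : ℝ) / 2) ^ (q + (p + 1) + 2) / (Λ (q + (p + 1)) + 1)
            ≤ ((1 / 2) ^ (q + 2) * (1 / 2)) / (l p + 1) := by
              gcongr
          _ = (1 / 2) ^ (q + 2) * (1 / (2 * (l p + 1))) := by
              field_simp
      refine h4.trans (le_of_eq ?_)
      rw [tsum_mul_right, hgeo']
      field_simp
      norm_num
    have h2 : PS (u p) (l p) R z ≤ 1 := by
      have h3 : PS (u p) (l p) R z ≤ 2 * (l p) * (1 / (4 * (l p + 1))) := by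
        apply PS_le_of_bound
        intro i _
        apply hRb
        have h4 := hun1 p (G p) (Λ p) (hpoly p) i
        rw [norm_smul, hz1, mul_one, Complex.norm_real, Real.norm_of_nonneg h4.1]
        exact h4.2.le
      refine h3.trans ?_
      have hl0 : (0 : ℝ) ≤ l p := Nat.cast_nonneg _
      rw [mul_one_div, div_le_one (by positivity)]
      linarith
    rw [hf]
    have h3 := PS_sub_le (u p) (l p) (F p) (G p + R) z
    have h4 := PS_add_le (u p) (l p) (G p) R z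
    linarith

end glue

end Pool.Agent.Work.MP_28e115_an
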