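import Mathlib

set_option autoImplicit false

open scoped InnerProductSpace

namespace Pool.Agent.Work.MP_28e115_an

section kernel

variable {E : Type*} [NormedAddCommGroup E] [InnerProductSpace ℂ E]

/-- The peaking kernel `(⟪ζ, w⟫ (1 + ⟪ζ, w⟫) / 2)^m`. -/
noncomputable def ker (m : ℕ) (ζ w : E) : ℂ :=
  (⟪ζ, w⟫_ℂ * ((1 + ⟪ζ, w⟫_ℂ) / 2)) ^ m

lemma half_norm_sq_le {ζ w : E} (hζ : ‖ζ‖ = 1) (hw : ‖w‖ ≤ 1) :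
    ‖(1 + ⟪ζ, w⟫_ℂ) / 2‖ ^ 2 ≤ 1 - ‖w - ζ‖ ^ 2 / 4 := by
  have h1 : (1 + ⟪ζ, w⟫_ℂ) / 2 = ⟪ζ, (1/2 : ℂ) • (ζ + w)⟫_ℂ := by
    rw [inner_smul_right, inner_add_right, inner_self_eq_norm_sq_to_K, hζ]
    push_cast
    ring
  have h2 : ‖(1 + ⟪ζ, w⟫_ℂ) / 2‖ ≤ ‖(1/2 : ℂ) • (ζ + w)‖ := by
    rw [h1]
    have := norm_inner_le_norm (𝕜 := ℂ) ζ ((1/2 : ℂ) • (ζ + w))
    rwa [hζ, one_mul] at this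
  have h3 : ‖(1/2 : ℂ) • (ζ + w)‖ = ‖ζ + w‖ / 2 := by
    rw [norm_smul]
    norm_num
    ring
  rw [h3] at h2
  have h4 := parallelogram_law_with_norm ℂ ζ w
  rw [hζ] at h4
  have h5 : ‖w - ζ‖ = ‖ζ - w‖ := norm_sub_rev _ _
  rw [h5]
  have h6 : ‖(1 + ⟪ζ, w⟫_ℂ) / 2‖ ^ 2 ≤ (‖ζ + w‖ / 2) ^ 2 := by
    gcongr
  have h7 : ‖w‖ ^ 2 ≤ 1 := by
    have := norm_nonneg w
    nlinarith
  nlinarith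

lemma half_norm_le_exp {ζ w : E} (hζ : ‖ζ‖ = 1) (hw : ‖w‖ ≤ 1) :
    ‖(1 + ⟪ζ, w⟫_ℂ) / 2‖ ≤ Real.exp (-(‖w - ζ‖ ^ 2 / 8)) := by
  have h := half_norm_sq_le hζ hw
  have h2 : 1 - ‖w - ζ‖ ^ 2 / 4 ≤ Real.exp (-(‖w - ζ‖ ^ 2 / 4)) := by
    have := Real.add_one_le_exp (-(‖w - ζ‖ ^ 2 / 4))
    linarith
  have h3 : Real.exp (-(‖w - ζ‖ ^ 2 / 4)) = Real.exp (-(‖w - ζ‖ ^ 2 / 8)) ^ 2 := by
    rw [← Real.exp_nat_mul]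
    congr 1
    push_cast
    ring
  have h4 : ‖(1 + ⟪ζ, w⟫_ℂ) / 2‖ ^ 2 ≤ Real.exp (-(‖w - ζ‖ ^ 2 / 8)) ^ 2 := by
    rw [← h3]; exact h.trans h2
  exact le_of_sq_le_sq h4 (Real.exp_pos _).le

lemma norm_ker_le {ζ w : E} (m : ℕ) (hζ : ‖ζ‖ = 1) (hw : ‖w‖ ≤ 1) :
    ‖ker m ζ w‖ ≤ ‖w‖ ^ m * Real.exp (-(m * ‖w - ζ‖ ^ 2 / 8)) := by
  unfold ker
  rw [norm_pow, norm_mul]
  have h1 : ‖⟪ζ, w⟫_ℂ‖ ≤ ‖w‖ := by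
    have := norm_inner_le_norm (𝕜 := ℂ) ζ w
    rwa [hζ, one_mul] at this
  have h2 := half_norm_le_exp hζ hw
  have h3 : Real.exp (-(m * ‖w - ζ‖ ^ 2 / 8)) = Real.exp (-(‖w - ζ‖ ^ 2 / 8)) ^ m := by
    rw [← Real.exp_nat_mul]
    congr 1
    ring
  rw [h3, ← mul_pow]
  gcongr

lemma le_norm_ker {ζ z : E} (m : ℕ) (hζ : ‖ζ‖ = 1) (hz : ‖z‖ = 1)
    (h : (m : ℝ) * ‖z - ζ‖ ^ 2 ≤ 1 / 4) (hm : 1 ≤ m) :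
    (3 / 4 : ℝ) ≤ ‖ker m ζ z‖ := by
  set s : ℝ := ‖z - ζ‖ ^ 2 with hs
  have hs0 : 0 ≤ s := by positivity
  have hre : (⟪ζ, z⟫_ℂ).re = 1 - s / 2 := by
    have h1 := @norm_sub_sq ℂ E _ _ _ z ζ
    rw [hζ, hz] at h1
    have h2 : RCLike.re ⟪z, ζ⟫_ℂ = (⟪ζ, z⟫_ℂ).re := inner_re_symm (𝕜 := ℂ) z ζ
    rw [h2] at h1
    rw [hs, h1]
    ring
  have hm' : (1 : ℝ) ≤ m := by exact_mod_cast hm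
  have hs1 : s ≤ 1 / 4 := by nlinarith
  have h1 : 1 - s / 2 ≤ ‖⟪ζ, z⟫_ℂ‖ := by
    rw [← hre]; exact Complex.re_le_norm _
  have h2 : 1 - s / 4 ≤ ‖(1 + ⟪ζ, z⟫_ℂ) / 2‖ := by
    have : ((1 + ⟪ζ, z⟫_ℂ) / 2).re = 1 - s / 4 := by
      have : ((1 + ⟪ζ, z⟫_ℂ) / 2).re = (1 + (⟪ζ, z⟫_ℂ).re) / 2 := by
        simp
      rw [this, hre]; ring
    rw [← this]; exact Complex.re_le_norm _
  have h3 : 1 - s ≤ ‖⟪ζ, z⟫_ℂ * ((1 + ⟪ζ, z⟫_ℂ) / 2)‖ := by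
    rw [norm_mul]
    calc 1 - s ≤ (1 - s / 2) * (1 - s / 4) := by nlinarith
      _ ≤ _ := by gcongr; linarith
  unfold ker
  rw [norm_pow]
  calc (3 / 4 : ℝ) ≤ 1 + m * (-s) := by nlinarith
    _ ≤ (1 + (-s)) ^ m := one_add_mul_le_pow (by linarith) m
    _ ≤ _ := by
      gcongr
      · linarith
      · linarith

end kernel

end Pool.Agent.Work.MP_28e115_an
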