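import Pool.Agent.Work.MP_28e115_an.Basic

set_option autoImplicit false

open Metric Set MeasureTheory Filter Topology
open scoped InnerProductSpace ENNReal ComplexConjugate

namespace Pool.Agent.Work.MP_28e115_an

section phase

variable {n : ℕ} {σ : Measure (EuclideanSpace ℂ (Fin n))} [IsFiniteMeasure σ]

/-- The one-step property. -/
def StepProp (n : ℕ) (σ : Measure (EuclideanSpace ℂ (Fin n))) (C : ℝ) (K : ℕ) : Prop :=
  ∀ (φ : EuclideanSpace ℂ (Fin n) → ℝ), Continuous φ → (∀ w, 0 ≤ φ w) → (∀ w, φ w ≤ 1) →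
    ∀ η : ℝ, 0 < η → ∀ D : ℕ, ∀ ρ : ℝ, 0 ≤ ρ → ρ < 1 →
    ∀ A : Set (EuclideanSpace ℂ (Fin n)), MeasurableSet A →
    ∃ (g : EuclideanSpace ℂ (Fin n) → ℂ) (D' : ℕ), g ∈ PolyLE n D' ∧ g ∈ PolyGT n D ∧
      (∀ w, ‖w‖ ≤ 1 → ‖g w‖ ≤ C * φ w + η) ∧
      (∀ w, ‖w‖ ≤ ρ → ‖g w‖ ≤ η) ∧
      ∫ z in A, φ z ∂σ ≤ K * ∫ z in A, (2 * ‖g z‖ + 2 * η) ∂σ

lemma step_int (hn : 1 ≤ n) (hS : ∀ᵐ z ∂σ, ‖z‖ = 1) :
    ∃ (C : ℝ) (K : ℕ), 0 < C ∧ 0 < K ∧ StepProp n σ C K := by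
  obtain ⟨C, K, hC, hK, h⟩ := step n hn
  refine ⟨C, K, hC, hK, ?_⟩
  intro φ hφ hφ0 hφ1 η hη D ρ hρ0 hρ1 A hA
  set ν : Measure (EuclideanSpace ℂ (Fin n)) :=
    (σ.restrict A).withDensity (fun z => ENNReal.ofReal (φ z)) with hν
  obtain ⟨g, D', hg1, hg2, hg3, hg4, hg5⟩ := h φ hφ hφ0 hφ1 η hη D ρ hρ0 hρ1 ν
  refine ⟨g, D', hg1, hg2, hg3, hg4, ?_⟩
  have hgc : Continuous g := PolyLE.cont hg1
  have hSm : MeasurableSet {z : EuclideanSpace ℂ (Fin n) | ‖z‖ = 1} :=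
    (isClosed_eq continuous_norm continuous_const).measurableSet
  have hGm : MeasurableSet {z : EuclideanSpace ℂ (Fin n) | ‖z‖ = 1 ∧ φ z ≤ 2 * ‖g z‖ + 2 * η} := by
    refine hSm.inter ?_
    exact (isClosed_le hφ (by fun_prop)).measurableSet
  have h1 : ν {z | ‖z‖ = 1} = ENNReal.ofReal (∫ z in A, φ z ∂σ) := by
    rw [hν, withDensity_apply _ hSm]
    have h2 : (σ.restrict A).restrict {z | ‖z‖ = 1} = σ.restrict A := by
      apply Measure.restrict_eq_self_of_ae_mem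
      exact ae_restrict_of_ae hS
    rw [h2, ofReal_integral_eq_lintegral_ofReal]
    · exact (integrable_cont hS hφ).integrableOn
    · exact Eventually.of_forall hφ0
  have h3 : ν {z | ‖z‖ = 1 ∧ φ z ≤ 2 * ‖g z‖ + 2 * η}
      ≤ ENNReal.ofReal (∫ z in A, (2 * ‖g z‖ + 2 * η) ∂σ) := by
    rw [hν, withDensity_apply _ hGm]
    rw [ofReal_integral_eq_lintegral_ofReal]
    · calc ∫⁻ z in {z | ‖z‖ = 1 ∧ φ z ≤ 2 * ‖g z‖ + 2 * η}, ENNReal.ofReal (φ z) ∂σ.restrict A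
          ≤ ∫⁻ z in {z | ‖z‖ = 1 ∧ φ z ≤ 2 * ‖g z‖ + 2 * η},
              ENNReal.ofReal (2 * ‖g z‖ + 2 * η) ∂σ.restrict A := by
            refine setLIntegral_mono' hGm (fun z hz => ?_)
            exact ENNReal.ofReal_le_ofReal hz.2
        _ ≤ ∫⁻ z, ENNReal.ofReal (2 * ‖g z‖ + 2 * η) ∂σ.restrict A :=
            setLIntegral_le_lintegral _ _
    · exact (integrable_cont hS (by fun_prop)).integrableOn
    · exact Eventually.of_forall (fun z => by positivity)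
  rw [h1] at hg5
  have h4 : ENNReal.ofReal (∫ z in A, φ z ∂σ) ≤
      ENNReal.ofReal (K * ∫ z in A, (2 * ‖g z‖ + 2 * η) ∂σ) := by
    refine hg5.trans ?_
    rw [ENNReal.ofReal_mul (Nat.cast_nonneg K), ENNReal.ofReal_natCast]
    exact mul_le_mul_right h3 _
  have h5 : 0 ≤ ∫ z in A, (2 * ‖g z‖ + 2 * η) ∂σ :=
    integral_nonneg (fun z => by positivity)
  exact (ENNReal.ofReal_le_ofReal_iff (by positivity)).mp h4

lemma near_radius {F : EuclideanSpace ℂ (Fin n) → ℂ} (hF : Continuous F) (ε : ℝ) (hε : 0 < ε)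
    (a : ℝ) (ha0 : 0 ≤ a) (ha : a < 1) :
    ∃ ρ : ℝ, a ≤ ρ ∧ ρ < 1 ∧ 0 ≤ ρ ∧ ∀ z : EuclideanSpace ℂ (Fin n), ‖z‖ = 1 →
      ‖F ((ρ : ℂ) • z) - F z‖ ≤ ε := by
  have h1 : UniformContinuousOn F (closedBall (0 : EuclideanSpace ℂ (Fin n)) 1) :=
    (isCompact_closedBall _ _).uniformContinuousOn_of_continuous hF.continuousOn
  obtain ⟨τ, hτ, h2⟩ := Metric.uniformContinuousOn_iff.mp h1 ε hε
  have hτ' : 1 - τ / 2 < 1 := by linarith
  refine ⟨max a (1 - τ / 2), le_max_left _ _, max_lt ha hτ', ha0.trans (le_max_left _ _), ?_⟩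
  intro z hz
  set ρ := max a (1 - τ / 2) with hρ
  have hρ0 : 0 ≤ ρ := ha0.trans (le_max_left _ _)
  have hρ1 : ρ < 1 := max_lt ha hτ'
  have hρτ : 1 - τ / 2 ≤ ρ := le_max_right _ _
  have h3 : ‖((ρ : ℂ) • z)‖ = ρ := by
    rw [norm_smul, hz, mul_one, Complex.norm_real, Real.norm_of_nonneg hρ0]
  have h4 : dist ((ρ : ℂ) • z) z < τ := by
    rw [dist_eq_norm]
    have : (ρ : ℂ) • z - z = ((ρ - 1 : ℝ) : ℂ) • z := by
      rw [Complex.ofReal_sub, sub_smul]; simp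
    rw [this, norm_smul, hz, mul_one, Complex.norm_real, Real.norm_eq_abs, abs_sub_comm,
      abs_of_nonneg (by linarith)]
    linarith
  have h5 := h2 ((ρ : ℂ) • z) (mem_closedBall_zero_iff.mpr (by rw [h3]; exact hρ1.le)) z
    (mem_closedBall_zero_iff.mpr hz.le) h4
  rw [dist_eq_norm] at h5
  exact h5.le

/-- Induction invariant. -/
def Inv (n : ℕ) (σ : Measure (EuclideanSpace ℂ (Fin n))) (C : ℝ) (K : ℕ)
    (δ η N' : ℝ) (L k : ℕ) : Prop :=
  ∃ (F : EuclideanSpace ℂ (Fin n) → ℂ) (T : EuclideanSpace ℂ (Fin n) → ℝ) (l : ℕ) (u : ℕ → ℝ)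
    (D : ℕ), F ∈ PolyLE n D ∧ Continuous T ∧ (∀ z, 0 ≤ T z) ∧ Monotone u ∧
    (∀ i, u i ∈ Ico (0 : ℝ) 1) ∧
    (∀ w, ‖w‖ ≤ 1 → ‖F w‖ ≤ 1 + k * (δ * η)) ∧
    ∫ z, ‖F z‖ ^ 2 ∂σ ≤ k * (δ ^ 2 * (C + 1) ^ 2 * σ.real univ) ∧
    (∀ z, ‖z‖ = 1 → T z - k * η ≤ PS u l F z) ∧
    k * (δ * ((1 / (2 * K)) * (σ.real {z | T z ≤ N'} - L * (δ ^ 2 * (C + 1) ^ 2 * σ.real univ)))
      - δ * (η * σ.real univ)) ≤ ∫ z, min (T z) (N' + δ * (C + 1)) ∂σ

lemma inv_step (hS : ∀ᵐ z ∂σ, ‖z‖ = 1)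
    (hinv : ∀ c : ℂ, ‖c‖ = 1 → Measure.map (fun z => c • z) σ = σ)
    (C : ℝ) (K : ℕ) (hC : 0 < C) (hK : 0 < K) (hstep : StepProp n σ C K)
    (δ η N' : ℝ) (hδ : 0 < δ) (hδ1 : δ ≤ 1) (hδC : 2 * δ * C ≤ 1) (hη : 0 < η) (hη1 : η ≤ 1)
    (L k : ℕ) (hk : k < L) (h : Inv n σ C K δ η N' L k) :
    Inv n σ C K δ η N' L (k + 1) := by
  obtain ⟨F, T, l, u, D, hF, hTc, hT0, hu, hu1, hFb, hF2, hPS, hI⟩ := h
  have hFc := PolyLE.cont hF
  set V : ℝ := σ.real univ with hV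
  have hV0 : 0 ≤ V := measureReal_nonneg
  set A : Set (EuclideanSpace ℂ (Fin n)) := {z | T z ≤ N'} with hA
  have hAm : MeasurableSet A := (isClosed_le hTc continuous_const).measurableSet
  set φ : EuclideanSpace ℂ (Fin n) → ℝ := fun w => max 0 (1 - ‖F w‖ ^ 2) with hφ
  have hφc : Continuous φ := by
    simp only [hφ]
    fun_prop
  have hφ0 : ∀ w, 0 ≤ φ w := fun w => le_max_left _ _
  have hφ1 : ∀ w, φ w ≤ 1 := fun w => max_le zero_le_one (by have := sq_nonneg ‖F w‖; linarith)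
  set η1 : ℝ := η / (8 * (l + 1)) with hη1d
  have hl0 : (0 : ℝ) ≤ l := Nat.cast_nonneg l
  have hη10 : 0 < η1 := by positivity
  have hη1l : η1 * (8 * (l + 1)) = η := by rw [hη1d]; field_simp
  have hη1η : 8 * η1 ≤ η := by
    have h0 : 0 ≤ η1 * l := mul_nonneg hη10.le hl0
    rw [← hη1l]
    linarith
  obtain ⟨ρ0, hρ0a, hρ01, hρ00, hρ0F⟩ :=
    near_radius hFc (η / 8) (by positivity) (u l) (hu1 l).1 (hu1 l).2
  obtain ⟨g, D', hg1, hg2, hg3, hg4, hg5⟩ :=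
    hstep φ hφc hφ0 hφ1 η1 hη10 D ρ0 hρ00 hρ01 A hAm
  have hgc := PolyLE.cont hg1
  set F' : EuclideanSpace ℂ (Fin n) → ℂ := F + (δ : ℂ) • g with hF'
  have hF'm : F' ∈ PolyLE n (max D D') :=
    Submodule.add_mem _ (PolyLE.mono (le_max_left _ _) hF)
      (Submodule.smul_mem _ _ (PolyLE.mono (le_max_right _ _) hg1))
  have hF'c := PolyLE.cont hF'm
  have hF'e : ∀ z, F' z = F z + (δ : ℂ) * g z := fun z => by simp [hF']
  have hnδ : ‖(δ : ℂ)‖ = δ := by rw [Complex.norm_real, Real.norm_of_nonneg hδ.le]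
  obtain ⟨ρ1, hρ1a, hρ11, hρ10, hρ1F⟩ :=
    near_radius hF'c (η / 8) (by positivity) ρ0 hρ00 hρ01
  obtain ⟨u', hu', hu'1, hPS'⟩ := PS_extend (n := n) u hu hu1 l ρ0 ρ1 hρ0a hρ1a hρ11
  -- sup bound of g on the closed ball
  have hgb : ∀ w, ‖w‖ ≤ 1 → ‖g w‖ ≤ C + 1 := by
    intro w hw
    have h1 := hg3 w hw
    have h2 := mul_le_mul_of_nonneg_left (hφ1 w) hC.le
    linarith
  set T' : EuclideanSpace ℂ (Fin n) → ℝ := fun z => T z + δ * ‖g z‖ with hT'
  have hT'c : Continuous T' := by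
    simp only [hT']
    fun_prop
  have hTT' : ∀ z, T z ≤ T' z := fun z => by
    have : 0 ≤ δ * ‖g z‖ := by positivity
    simp only [hT']; linarith
  refine ⟨F', T', l + 2, u', max D D', hF'm, hT'c, fun z => (hT0 z).trans (hTT' z), hu', hu'1,
    ?_, ?_, ?_, ?_⟩
  · -- sup bound
    intro w hw
    rw [hF'e]
    have h1 := norm_add_le (F w) ((δ : ℂ) * g w)
    rw [norm_mul, hnδ] at h1
    have h2 := hg3 w hw
    have h3 := hFb w hw
    have hk0 : (0 : ℝ) ≤ k := Nat.cast_nonneg k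
    push_cast
    have hδη : 0 < δ * η := by positivity
    by_cases hcase : ‖F w‖ ≤ 1
    · have h4 : φ w = 1 - ‖F w‖ ^ 2 := by
        have h5 := norm_nonneg (F w)
        have h6 : ‖F w‖ ^ 2 ≤ 1 := pow_le_one₀ h5 hcase
        exact max_eq_right (by linarith)
      rw [h4] at h2
      have h5 := norm_nonneg (F w)
      have h6 : ‖F w‖ + δ * (C * (1 - ‖F w‖ ^ 2)) ≤ 1 := by
        have h7 : (1 - ‖F w‖) * (2 * δ * C) ≤ (1 - ‖F w‖) * 1 := by
          apply mul_le_mul_of_nonneg_left hδC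
          linarith
        have h8 : δ * (C * (1 - ‖F w‖ ^ 2)) = (δ * C) * (1 - ‖F w‖) * (1 + ‖F w‖) := by ring
        have h9 : (δ * C) * (1 - ‖F w‖) * (1 + ‖F w‖) ≤ (δ * C) * (1 - ‖F w‖) * 2 := by
          apply mul_le_mul_of_nonneg_left (by linarith)
          apply mul_nonneg (by positivity)
          linarith
        rw [h8]
        clear * - h7 h9
        linarith
      have h7 : δ * ‖g w‖ ≤ δ * (C * (1 - ‖F w‖ ^ 2) + η1) := by gcongr
      have h8 : δ * η1 ≤ δ * η := by gcongr; linarith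
      have h10 : 0 ≤ (k : ℝ) * (δ * η) := mul_nonneg hk0 hδη.le
      clear * - h1 h6 h7 h8 h10
      linarith
    · have hcase := not_le.mp hcase
      have h4 : φ w = 0 := by
        have h6 : 1 < ‖F w‖ ^ 2 := one_lt_pow₀ hcase two_ne_zero
        exact max_eq_left (by linarith)
      rw [h4] at h2
      have h7 : δ * ‖g w‖ ≤ δ * (C * 0 + η1) := by gcongr
      have h8 : δ * η1 ≤ δ * η := by gcongr; linarith
      clear * - h1 h3 h7 h8
      linarith
  · -- L² bound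
    have h1 : ∫ z, ‖F' z‖ ^ 2 ∂σ = ∫ z, ‖F z‖ ^ 2 ∂σ + δ ^ 2 * ∫ z, ‖g z‖ ^ 2 ∂σ := by
      rw [← integral_sq_add hS hinv hF hg2 hg1 δ]
      simp_rw [hF'e]
    rw [h1]
    have h2 : ∫ z, ‖g z‖ ^ 2 ∂σ ≤ (C + 1) ^ 2 * V := by
      have h3 : ∫ z, ‖g z‖ ^ 2 ∂σ ≤ ∫ _z, (C + 1) ^ 2 ∂σ := by
        refine integral_mono_ae (integrable_cont hS (by fun_prop)) (integrable_const _) ?_
        filter_upwards [hS] with z hz
        have := hgb z hz.le
        gcongr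
      rw [integral_const, smul_eq_mul, mul_comm] at h3
      exact h3
    push_cast
    have h3 : δ ^ 2 * ∫ z, ‖g z‖ ^ 2 ∂σ ≤ δ ^ 2 * ((C + 1) ^ 2 * V) := by gcongr
    clear * - h3 hF2
    linarith
  · -- variation
    intro z hz
    have h1 := hPS' F' z
    have h2 := PS_sub_le u l F ((δ : ℂ) • g) z
    rw [← hF', PS_smul, hnδ] at h2
    have h3 : PS u l g z ≤ 2 * l * η1 := by
      apply PS_le_of_bound
      intro i hi
      apply hg4
      rw [norm_smul, hz, mul_one, Complex.norm_real, Real.norm_of_nonneg (hu1 i).1]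
      exact (hu hi).trans hρ0a
    have h4 := hρ0F z hz
    have h5 := hρ1F z hz
    have h6 : ‖g ((ρ0 : ℂ) • z)‖ ≤ η1 := by
      apply hg4
      rw [norm_smul, hz, mul_one, Complex.norm_real, Real.norm_of_nonneg hρ00]
    have h7 : δ * ‖g z‖ ≤ ‖F' ((ρ1 : ℂ) • z) - F' ((ρ0 : ℂ) • z)‖
        + ‖F' ((ρ1 : ℂ) • z) - F' z‖ + ‖F ((ρ0 : ℂ) • z) - F z‖ + δ * ‖g ((ρ0 : ℂ) • z)‖ := by
      have h8 : (δ : ℂ) * g z = (F' ((ρ1 : ℂ) • z) - F' ((ρ0 : ℂ) • z))
        - (F' ((ρ1 : ℂ) • z) - F' z) + (F ((ρ0 : ℂ) • z) - F z) + (δ : ℂ) * g ((ρ0 : ℂ) • z) := by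
        rw [hF'e z, hF'e ((ρ0 : ℂ) • z)]
        ring
      have h9 : δ * ‖g z‖ = ‖(δ : ℂ) * g z‖ := by rw [norm_mul, hnδ]
      rw [h9, h8]
      refine (norm_add_le _ _).trans ?_
      rw [norm_mul, hnδ]
      gcongr
      refine (norm_add_le _ _).trans ?_
      gcongr
      exact norm_sub_le _ _
    have h8 := hPS z hz
    have h9 : δ * PS u l g z ≤ 1 * (2 * l * η1) := by
      have := PS_nonneg u l g z
      gcongr
    have h10 : δ * ‖g ((ρ0 : ℂ) • z)‖ ≤ 1 * η1 := by gcongr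
    push_cast
    simp only [hT']
    have h11 : 0 ≤ η1 * l := mul_nonneg hη10.le hl0
    clear * - h1 h2 h4 h5 h7 h8 h9 h10 h11 hη1l hη10
    linarith
  · -- the main inequality
    have hK0 : (0 : ℝ) < K := by exact_mod_cast hK
    set s : ℝ := σ.real A with hs
    have hs0 : 0 ≤ s := measureReal_nonneg
    have hsV : s ≤ V := measureReal_mono (subset_univ _) (measure_ne_top _ _)
    have hsub : σ.real {z | T' z ≤ N'} ≤ s := by
      refine measureReal_mono ?_ (measure_ne_top _ _)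
      intro z hz
      exact (hTT' z).trans hz
    have hk0 : (0 : ℝ) ≤ k := Nat.cast_nonneg k
    have hkL : (k : ℝ) ≤ L := by exact_mod_cast hk.le
    -- I1
    have hI1 : s - L * (δ ^ 2 * (C + 1) ^ 2 * V) ≤ ∫ z in A, φ z ∂σ := by
      have h1 : ∫ z in A, (1 - ‖F z‖ ^ 2) ∂σ ≤ ∫ z in A, φ z ∂σ := by
        refine integral_mono ?_ ?_ (fun z => le_max_right _ _)
        · exact (integrable_cont hS (by fun_prop)).integrableOn
        · exact (integrable_cont hS hφc).integrableOn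
      have h2 : ∫ z in A, (1 - ‖F z‖ ^ 2) ∂σ = s - ∫ z in A, ‖F z‖ ^ 2 ∂σ := by
        rw [integral_sub]
        · simp [hs, measureReal_restrict_apply]
        · exact integrable_const _
        · exact (integrable_cont hS (by fun_prop)).integrableOn
      have h3 : ∫ z in A, ‖F z‖ ^ 2 ∂σ ≤ ∫ z, ‖F z‖ ^ 2 ∂σ := by
        refine setIntegral_le_integral (integrable_cont hS (by fun_prop)) ?_
        exact Eventually.of_forall (fun z => by positivity)
      have h4 : (k : ℝ) * (δ ^ 2 * (C + 1) ^ 2 * V) ≤ L * (δ ^ 2 * (C + 1) ^ 2 * V) := by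
        gcongr
      linarith
    -- I2
    have hI2 : ∫ z in A, φ z ∂σ ≤ K * (2 * ∫ z in A, ‖g z‖ ∂σ + 2 * (η * V)) := by
      refine hg5.trans ?_
      have h1 : ∫ z in A, (2 * ‖g z‖ + 2 * η1) ∂σ = 2 * ∫ z in A, ‖g z‖ ∂σ + 2 * (η1 * s) := by
        rw [integral_add, integral_const_mul]
        · simp only [integral_const, hs, smul_eq_mul]
          simp [measureReal_restrict_apply]
          ring
        · exact (integrable_cont hS (by fun_prop)).integrableOn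
        · exact integrable_const _
      rw [h1]
      have h2 : η1 * s ≤ η * V := by
        gcongr
        linarith
      gcongr
    -- I3
    have hI3 : ∫ z, min (T z) (N' + δ * (C + 1)) ∂σ + δ * ∫ z in A, ‖g z‖ ∂σ
        ≤ ∫ z, min (T' z) (N' + δ * (C + 1)) ∂σ := by
      rw [← integral_indicator hAm, ← integral_const_mul, ← integral_add]
      · refine integral_mono_ae ?_ ?_ ?_
        · refine Integrable.add (integrable_cont hS (by fun_prop)) ?_
          exact ((integrable_cont hS (by fun_prop)).indicator hAm).const_mul _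
        · exact integrable_cont hS (by fun_prop)
        · filter_upwards [hS] with z hz
          have h1 := hgb z hz.le
          by_cases hzA : z ∈ A
          · rw [Set.indicator_of_mem hzA]
            have h2 : T z ≤ N' := hzA
            have h3 : δ * ‖g z‖ ≤ δ * (C + 1) := by gcongr
            have h4 : T' z ≤ N' + δ * (C + 1) := by simp only [hT']; linarith
            rw [min_eq_left h4]
            have h5 := min_le_left (T z) (N' + δ * (C + 1))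
            simp only [hT']
            linarith
          · rw [Set.indicator_of_notMem hzA]
            rw [mul_zero, add_zero]
            exact min_le_min_right _ (hTT' z)
      · exact integrable_cont hS (by fun_prop)
      · exact ((integrable_cont hS (by fun_prop)).indicator hAm).const_mul _
    -- combine
    set Q : ℝ := L * (δ ^ 2 * (C + 1) ^ 2 * V) with hQ
    set G : ℝ := ∫ z in A, ‖g z‖ ∂σ with hG
    have h1 : (1 / (2 * K)) * (s - Q) - η * V ≤ G := by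
      have h2 : s - Q ≤ K * (2 * G + 2 * (η * V)) := hI1.trans hI2
      have h3 : (1 / (2 * K : ℝ)) * (s - Q) ≤ (1 / (2 * K)) * (K * (2 * G + 2 * (η * V))) := by
        gcongr
      have h4 : (1 / (2 * K : ℝ)) * (K * (2 * G + 2 * (η * V))) = G + η * V := by
        field_simp
      linarith
    have h2 : δ * ((1 / (2 * K)) * (s - Q)) - δ * (η * V) ≤ δ * G := by
      have : δ * ((1 / (2 * K)) * (s - Q) - η * V) ≤ δ * G := by gcongr
      linarith
    have h3 : δ * ((1 / (2 * K)) * (σ.real {z | T' z ≤ N'} - Q)) - δ * (η * V)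
        ≤ δ * ((1 / (2 * K)) * (s - Q)) - δ * (η * V) := by
      gcongr
    have h4 : (k : ℝ) * (δ * ((1 / (2 * K)) * (σ.real {z | T' z ≤ N'} - Q)) - δ * (η * V))
        ≤ k * (δ * ((1 / (2 * K)) * (s - Q)) - δ * (η * V)) := by
      gcongr
    push_cast
    linarith

end phase

end Pool.Agent.Work.MP_28e115_an
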