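import Pool.Agent.Work.MP_28e115_an.Kernel
import Pool.Agent.Work.MP_28e115_an.Cells

set_option autoImplicit false

open Metric Set

namespace Pool.Agent.Work.MP_28e115_an

lemma cell_zero {n : ℕ} (r : ℝ) : cell r (0 : EuclideanSpace ℂ (Fin n)) = 0 := by
  funext i
  simp [cell]

lemma finite_cells {n : ℕ} {r : ℝ} (hr : 0 < r) :
    (cell r '' (sphere (0 : EuclideanSpace ℂ (Fin n)) 1)).Finite := by
  have h1 : (closedBall (0 : Fin n → ℤ × ℤ) (1 / r + 1)).Finite := by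
    exact (isCompact_closedBall _ _).finite_of_discrete
  refine h1.subset ?_
  rintro c ⟨z, hz, rfl⟩
  have h2 := cell_dist hr z 0
  rw [cell_zero, sub_zero, sub_zero] at h2
  rw [mem_sphere_zero_iff_norm] at hz
  rw [hz] at h2
  rw [mem_closedBall_zero_iff]
  exact h2

theorem selection (n : ℕ) (hn : 1 ≤ n) :
    ∃ (Col : Type) (_ : Fintype Col) (C0 : ℝ), 0 < C0 ∧ ∀ m : ℕ, 1 ≤ m →
      ∃ (Z : Col → Finset (EuclideanSpace ℂ (Fin n))) (col : EuclideanSpace ℂ (Fin n) → Col),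
        (∀ γ, ∀ ζ ∈ Z γ, ‖ζ‖ = 1) ∧
        (∀ γ, ∀ w : EuclideanSpace ℂ (Fin n),
          ∑ ζ ∈ Z γ, Real.exp (-(m * ‖w - ζ‖ ^ 2 / 16)) ≤ C0) ∧
        (∀ z : EuclideanSpace ℂ (Fin n), ‖z‖ = 1 → ∃ ζ₀ ∈ Z (col z),
          (m : ℝ) * ‖z - ζ₀‖ ^ 2 ≤ 1 / 4 ∧
          ∃ s : Finset (EuclideanSpace ℂ (Fin n)), insert ζ₀ s = Z (col z) ∧ ζ₀ ∉ s ∧
            ∑ ζ ∈ s, Real.exp (-(m * ‖z - ζ‖ ^ 2 / 16)) ≤ 1 / 4) := by
  classical
  have hn' : (0 : ℝ) < n := by exact_mod_cast hn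
  have hn1 : (1 : ℝ) ≤ n := by exact_mod_cast hn
  set ρ : ℝ := Real.sqrt (1 / (8 * n)) with hρ
  have hρ0 : 0 < ρ := Real.sqrt_pos.mpr (by positivity)
  have hρ2 : ρ ^ 2 = 1 / (8 * n) := Real.sq_sqrt (by positivity)
  have hρ1 : ρ ≤ 1 := by
    have h1 : ρ ^ 2 ≤ 1 := by
      rw [hρ2, div_le_one (by positivity)]
      linarith
    nlinarith
  set H : (Fin n → ℤ × ℤ) → ℝ := fun c => 3 * Real.exp (-(ρ / 8 * ‖c‖)) with hH
  have hHs : Summable H := (summable_lattice n (ρ / 8) (by positivity)).mul_left 3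
  have hH0 : ∀ c, 0 ≤ H c := fun c => by simp only [hH]; positivity
  -- separation parameter
  obtain ⟨s0, hs0⟩ : ∃ s0 : Finset (Fin n → ℤ × ℤ), ∀ t : Finset (Fin n → ℤ × ℤ),
      Disjoint t s0 → ∑ c ∈ t, H c ≤ 1 / 4 := by
    have h1 := summable_iff_vanishing_norm.mp hHs (1 / 4) (by norm_num)
    obtain ⟨s0, hs0⟩ := h1
    refine ⟨s0, fun t ht => ?_⟩
    have := hs0 t ht
    rw [Real.norm_of_nonneg (Finset.sum_nonneg (fun c _ => hH0 c))] at this
    exact this.le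
  obtain ⟨L, hL⟩ : ∃ L : ℕ, ∀ c ∈ s0, ‖c‖ < L := by
    obtain ⟨L, hL⟩ := exists_nat_gt (∑ c ∈ s0, ‖c‖)
    refine ⟨L, fun c hc => ?_⟩
    have : ‖c‖ ≤ ∑ c ∈ s0, ‖c‖ :=
      Finset.single_le_sum (f := fun c => ‖c‖) (fun c _ => norm_nonneg c) hc
    linarith
  have : NeZero (L + 1) := ⟨Nat.succ_ne_zero L⟩
  refine ⟨Fin n → ZMod (L + 1) × ZMod (L + 1), inferInstance, ∑' c, H c,
    ?_, ?_⟩
  · have h1 : 0 < H 0 := by simp only [hH]; positivity
    exact hHs.tsum_pos hH0 0 h1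
  intro m hm
  have hm' : (0 : ℝ) < m := by exact_mod_cast hm
  set r : ℝ := ρ / Real.sqrt m with hr
  have hsm : 0 < Real.sqrt m := Real.sqrt_pos.mpr hm'
  have hr0 : 0 < r := by positivity
  have hmr : Real.sqrt m * r = ρ := by
    rw [hr]; field_simp
  have hmr2 : (m : ℝ) * r ^ 2 = ρ ^ 2 := by
    rw [← hmr, mul_pow, Real.sq_sqrt hm'.le]
  -- the Gaussian bound
  have hG : ∀ w ζ : EuclideanSpace ℂ (Fin n),
      Real.exp (-(m * ‖w - ζ‖ ^ 2 / 16)) ≤ H (cell r w - cell r ζ) := by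
    intro w ζ
    have h1 := cell_dist hr0 w ζ
    set c := ‖cell r w - cell r ζ‖ with hc
    set x := Real.sqrt m * ‖w - ζ‖ with hx
    have h2 : ρ * (c - 1) ≤ x := by
      have : c - 1 ≤ ‖w - ζ‖ / r := by linarith
      calc ρ * (c - 1) ≤ ρ * (‖w - ζ‖ / r) := by gcongr
        _ = x := by rw [hx, ← hmr]; field_simp
    have h3 : (m : ℝ) * ‖w - ζ‖ ^ 2 = x ^ 2 := by
      rw [hx, mul_pow, Real.sq_sqrt hm'.le]
    have h4 : 2 * x - 1 ≤ x ^ 2 := by nlinarith [sq_nonneg (x - 1)]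
    have h5 : -(m * ‖w - ζ‖ ^ 2 / 16) ≤ 1 + (-(ρ / 8 * c)) := by
      rw [h3]
      nlinarith
    calc Real.exp (-(m * ‖w - ζ‖ ^ 2 / 16)) ≤ Real.exp (1 + (-(ρ / 8 * c))) :=
          Real.exp_le_exp.mpr h5
      _ = Real.exp 1 * Real.exp (-(ρ / 8 * c)) := Real.exp_add _ _
      _ ≤ 3 * Real.exp (-(ρ / 8 * c)) := by
          have := Real.exp_one_lt_d9
          gcongr
          linarith
  -- representatives
  have hfin := finite_cells (n := n) hr0
  set S := hfin.toFinset with hS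
  have hrep : ∀ c : Fin n → ℤ × ℤ, ∃ ζ : EuclideanSpace ℂ (Fin n),
      c ∈ S → (‖ζ‖ = 1 ∧ cell r ζ = c) := by
    intro c
    by_cases hc : c ∈ S
    · have hc' : c ∈ (cell r '' (sphere (0 : EuclideanSpace ℂ (Fin n)) 1)) := by
        rw [hS, Set.Finite.mem_toFinset] at hc
        exact hc
      obtain ⟨ζ, hζ, hζc⟩ := hc'
      refine ⟨ζ, fun _ => ⟨?_, hζc⟩⟩
      rwa [mem_sphere_zero_iff_norm] at hζ
    · exact ⟨0, fun h => absurd h hc⟩
  choose rep hrep using hrep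
  set Γ : (Fin n → ZMod (L + 1) × ZMod (L + 1)) → Finset (Fin n → ℤ × ℤ) :=
    fun γ => S.filter (fun c => color n (L + 1) c = γ) with hΓ
  have hΓS : ∀ γ, ∀ c ∈ Γ γ, c ∈ S := fun γ c hc => (Finset.mem_filter.mp hc).1
  have hinj : ∀ γ, Set.InjOn rep (Γ γ : Set (Fin n → ℤ × ℤ)) := by
    intro γ c hc c' hc' h
    have h1 := (hrep c (hΓS γ c hc)).2
    have h2 := (hrep c' (hΓS γ c' hc')).2
    rw [← h1, ← h2, h]
  refine ⟨fun γ => (Γ γ).image rep, fun z => color n (L + 1) (cell r z), ?_, ?_, ?_⟩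
  · intro γ ζ hζ
    obtain ⟨c, hc, rfl⟩ := Finset.mem_image.mp hζ
    exact (hrep c (hΓS γ c hc)).1
  · intro γ w
    rw [Finset.sum_image (hinj γ)]
    calc ∑ c ∈ Γ γ, Real.exp (-(m * ‖w - rep c‖ ^ 2 / 16)) ≤ ∑ c ∈ Γ γ, H (cell r w - c) := by
          refine Finset.sum_le_sum (fun c hc => ?_)
          have := hG w (rep c)
          rwa [(hrep c (hΓS γ c hc)).2] at this
      _ ≤ ∑' c, H (cell r w - c) := by
          refine Summable.sum_le_tsum _ (fun c _ => hH0 _) ?_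
          exact (Equiv.subLeft (cell r w)).summable_iff.mpr hHs
      _ = ∑' c, H c := (Equiv.subLeft (cell r w)).tsum_eq H
  · intro z hz
    set c0 := cell r z with hc0
    set γ := color n (L + 1) c0 with hγ
    have hc0S : c0 ∈ S := by
      rw [hS, Set.Finite.mem_toFinset]
      exact ⟨z, mem_sphere_zero_iff_norm.mpr hz, rfl⟩
    have hc0Γ : c0 ∈ Γ γ := Finset.mem_filter.mpr ⟨hc0S, rfl⟩
    refine ⟨rep c0, Finset.mem_image_of_mem rep hc0Γ, ?_, ((Γ γ).erase c0).image rep, ?_, ?_, ?_⟩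
    · have h1 := cell_eq hr0 z (rep c0) (by rw [(hrep c0 hc0S).2])
      calc (m : ℝ) * ‖z - rep c0‖ ^ 2 ≤ m * (2 * n * r ^ 2) := by gcongr
        _ = 2 * n * (m * r ^ 2) := by ring
        _ = 1 / 4 := by rw [hmr2, hρ2]; field_simp; norm_num
    · rw [← Finset.image_insert, Finset.insert_erase hc0Γ]
    · intro h
      obtain ⟨c, hc, hcr⟩ := Finset.mem_image.mp h
      have h1 := Finset.mem_erase.mp hc
      exact h1.1 (hinj γ h1.2 hc0Γ hcr)
    · have hinj' : Set.InjOn rep (((Γ γ).erase c0 : Finset _) : Set (Fin n → ℤ × ℤ)) :=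
        (hinj γ).mono (by exact_mod_cast Finset.erase_subset _ _)
      rw [Finset.sum_image hinj']
      have h1 : ∑ c ∈ (Γ γ).erase c0, Real.exp (-(m * ‖z - rep c‖ ^ 2 / 16))
          ≤ ∑ c ∈ (Γ γ).erase c0, H (c0 - c) := by
        refine Finset.sum_le_sum (fun c hc => ?_)
        have := hG z (rep c)
        rwa [(hrep c (hΓS γ c (Finset.mem_of_mem_erase hc))).2] at this
      refine h1.trans ?_
      have h2 : ∑ c ∈ (Γ γ).erase c0, H (c0 - c)
          = ∑ c ∈ ((Γ γ).erase c0).image (fun c => c0 - c), H c := by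
        rw [Finset.sum_image]
        intro a _ b _ hab
        exact sub_right_injective hab
      rw [h2]
      apply hs0
      rw [Finset.disjoint_left]
      intro c hc hcs
      obtain ⟨c', hc', rfl⟩ := Finset.mem_image.mp hc
      have h3 := Finset.mem_erase.mp hc'
      have h4 := color_sep n (L + 1) c0 c' (Finset.mem_filter.mp h3.2).2.symm (Ne.symm h3.1)
      have h5 := hL _ hcs
      push_cast at h4
      linarith

end Pool.Agent.Work.MP_28e115_an
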