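import Pool.Agent.Work.MP_28e115_an.Select

set_option autoImplicit false

open Metric Set MeasureTheory Filter Topology
open scoped InnerProductSpace ENNReal

namespace Pool.Agent.Work.MP_28e115_an

/-- polynomials spanned by powers of linear forms of degree at most `D` -/
def PolyLE (n D : ℕ) : Submodule ℂ (EuclideanSpace ℂ (Fin n) → ℂ) :=
  Submodule.span ℂ {f | ∃ (ζ : EuclideanSpace ℂ (Fin n)) (j : ℕ), j ≤ D ∧ f = fun z => ⟪ζ, z⟫_ℂ ^ j}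

/-- polynomials spanned by powers of linear forms of degree more than `D` -/
def PolyGT (n D : ℕ) : Submodule ℂ (EuclideanSpace ℂ (Fin n) → ℂ) :=
  Submodule.span ℂ {f | ∃ (ζ : EuclideanSpace ℂ (Fin n)) (j : ℕ), D < j ∧ f = fun z => ⟪ζ, z⟫_ℂ ^ j}

lemma ker_eq_sum {n : ℕ} (m : ℕ) (ζ : EuclideanSpace ℂ (Fin n)) :
    (fun w => ker m ζ w) = ∑ j ∈ Finset.range (m + 1),
      ((m.choose j : ℂ) / 2 ^ m) • (fun w : EuclideanSpace ℂ (Fin n) => ⟪ζ, w⟫_ℂ ^ (m + j)) := by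
  funext w
  unfold ker
  rw [Finset.sum_apply]
  simp only [Pi.smul_apply, smul_eq_mul]
  have h1 : (⟪ζ, w⟫_ℂ * ((1 + ⟪ζ, w⟫_ℂ) / 2)) ^ m
      = ⟪ζ, w⟫_ℂ ^ m / 2 ^ m * (⟪ζ, w⟫_ℂ + 1) ^ m := by
    rw [mul_pow, div_pow, add_comm (1 : ℂ)]
    ring
  rw [h1, add_pow, Finset.mul_sum]
  refine Finset.sum_congr rfl (fun j _ => ?_)
  rw [one_pow, pow_add]
  ring

lemma ker_mem_LE {n : ℕ} (m : ℕ) (ζ : EuclideanSpace ℂ (Fin n)) :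
    (fun w => ker m ζ w) ∈ PolyLE n (2 * m) := by
  rw [ker_eq_sum]
  refine Submodule.sum_mem _ (fun j hj => Submodule.smul_mem _ _ (Submodule.subset_span ?_))
  refine ⟨ζ, m + j, ?_, rfl⟩
  have := Finset.mem_range.mp hj
  omega

lemma ker_mem_GT {n D : ℕ} (m : ℕ) (hm : D < m) (ζ : EuclideanSpace ℂ (Fin n)) :
    (fun w => ker m ζ w) ∈ PolyGT n D := by
  rw [ker_eq_sum]
  refine Submodule.sum_mem _ (fun j hj => Submodule.smul_mem _ _ (Submodule.subset_span ?_))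
  exact ⟨ζ, m + j, by omega, rfl⟩

theorem step (n : ℕ) (hn : 1 ≤ n) :
    ∃ (C : ℝ) (K : ℕ), 0 < C ∧ 0 < K ∧
      ∀ (φ : EuclideanSpace ℂ (Fin n) → ℝ), Continuous φ → (∀ w, 0 ≤ φ w) → (∀ w, φ w ≤ 1) →
      ∀ η : ℝ, 0 < η → ∀ D : ℕ, ∀ ρ : ℝ, 0 ≤ ρ → ρ < 1 →
      ∀ ν : Measure (EuclideanSpace ℂ (Fin n)),
      ∃ (g : EuclideanSpace ℂ (Fin n) → ℂ) (D' : ℕ), g ∈ PolyLE n D' ∧ g ∈ PolyGT n D ∧
        (∀ w, ‖w‖ ≤ 1 → ‖g w‖ ≤ C * φ w + η) ∧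
        (∀ w, ‖w‖ ≤ ρ → ‖g w‖ ≤ η) ∧
        ν {z | ‖z‖ = 1} ≤ K * ν {z | ‖z‖ = 1 ∧ φ z ≤ 2 * ‖g z‖ + 2 * η} := by
  classical
  obtain ⟨Col, hCol, C0, hC0, hsel⟩ := selection n hn
  refine ⟨C0, Fintype.card Col + 1, hC0, Nat.succ_pos _, ?_⟩
  intro φ hφc hφ0 hφ1 η hη D ρ hρ0 hρ1 ν
  -- uniform continuity
  obtain ⟨τ, hτ, hτφ⟩ : ∃ τ > 0, ∀ w ζ : EuclideanSpace ℂ (Fin n), ‖w‖ ≤ 1 → ‖ζ‖ ≤ 1 →
      ‖w - ζ‖ < τ → |φ ζ - φ w| ≤ η / (2 * C0) := by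
    have h1 : UniformContinuousOn φ (closedBall (0 : EuclideanSpace ℂ (Fin n)) 1) :=
      (isCompact_closedBall _ _).uniformContinuousOn_of_continuous hφc.continuousOn
    obtain ⟨τ, hτ, h2⟩ := Metric.uniformContinuousOn_iff.mp h1 (η / (2 * C0)) (by positivity)
    refine ⟨τ, hτ, fun w ζ hw hζ hd => ?_⟩
    have h3 := h2 w (mem_closedBall_zero_iff.mpr hw) ζ (mem_closedBall_zero_iff.mpr hζ)
      (by rwa [dist_eq_norm])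
    rw [dist_comm, Real.dist_eq] at h3
    exact h3.le
  -- choice of m
  obtain ⟨m, hm1, hmD, hmρ, hmτ⟩ : ∃ m : ℕ, 1 ≤ m ∧ D < m ∧ ρ ^ m * C0 ≤ η ∧
      Real.exp (-(m * τ ^ 2 / 16)) ≤ η / (2 * C0) := by
    have h1 : ∀ᶠ m : ℕ in atTop, 1 ≤ m := eventually_ge_atTop 1
    have h2 : ∀ᶠ m : ℕ in atTop, D < m := eventually_gt_atTop D
    have h3 : ∀ᶠ m : ℕ in atTop, ρ ^ m * C0 ≤ η := by
      have : Tendsto (fun m : ℕ => ρ ^ m * C0) atTop (𝓝 (0 * C0)) :=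
        (tendsto_pow_atTop_nhds_zero_of_lt_one hρ0 hρ1).mul_const C0
      rw [zero_mul] at this
      exact (this.eventually_lt_const hη).mono (fun _ h => h.le)
    have h4 : ∀ᶠ m : ℕ in atTop, Real.exp (-(m * τ ^ 2 / 16)) ≤ η / (2 * C0) := by
      have h5 : Tendsto (fun m : ℕ => (m : ℝ) * (τ ^ 2 / 16)) atTop atTop :=
        Tendsto.atTop_mul_const (by positivity) tendsto_natCast_atTop_atTop
      have h6 : Tendsto (fun m : ℕ => Real.exp (-(m * τ ^ 2 / 16))) atTop (𝓝 0) := by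
        refine (Real.tendsto_exp_neg_atTop_nhds_zero.comp h5).congr (fun m => ?_)
        simp only [Function.comp]
        congr 1; ring
      exact (h6.eventually_lt_const (by positivity)).mono (fun _ h => h.le)
    obtain ⟨m, hm⟩ := (h1.and (h2.and (h3.and h4))).exists
    exact ⟨m, hm.1, hm.2.1, hm.2.2.1, hm.2.2.2⟩
  obtain ⟨Z, col, hZ1, hZ2, hZ3⟩ := hsel m hm1
  -- pigeonhole
  obtain ⟨γ, hγ⟩ : ∃ γ : Col, ν {z | ‖z‖ = 1} ≤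
      ((Fintype.card Col + 1 : ℕ) : ℝ≥0∞) * ν {z | ‖z‖ = 1 ∧ col z = γ} := by
    have hne : Nonempty Col := ⟨col 0⟩
    obtain ⟨γ, _, hγ⟩ := Finset.exists_max_image (Finset.univ : Finset Col)
      (fun γ => ν {z | ‖z‖ = 1 ∧ col z = γ}) Finset.univ_nonempty
    refine ⟨γ, ?_⟩
    have h1 : {z : EuclideanSpace ℂ (Fin n) | ‖z‖ = 1}
        ⊆ ⋃ γ : Col, {z | ‖z‖ = 1 ∧ col z = γ} := by
      intro z hz
      exact Set.mem_iUnion.mpr ⟨col z, hz, rfl⟩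
    calc ν {z | ‖z‖ = 1} ≤ ν (⋃ γ : Col, {z | ‖z‖ = 1 ∧ col z = γ}) := measure_mono h1
      _ ≤ ∑ γ : Col, ν {z | ‖z‖ = 1 ∧ col z = γ} := measure_iUnion_fintype_le ν _
      _ ≤ ∑ _δ : Col, ν {z | ‖z‖ = 1 ∧ col z = γ} :=
          Finset.sum_le_sum (fun δ hδ => hγ δ hδ)
      _ = (Fintype.card Col : ℝ≥0∞) * ν {z | ‖z‖ = 1 ∧ col z = γ} := by
          rw [Finset.sum_const, Finset.card_univ, nsmul_eq_mul]
      _ ≤ _ := by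
          gcongr
          exact Nat.le_succ _
  -- bounds on the kernel
  have hker : ∀ ζ w : EuclideanSpace ℂ (Fin n), ‖ζ‖ = 1 → ‖w‖ ≤ 1 →
      ‖ker m ζ w‖ ≤ Real.exp (-(m * ‖w - ζ‖ ^ 2 / 16)) * Real.exp (-(m * ‖w - ζ‖ ^ 2 / 16)) := by
    intro ζ w hζ hw
    refine (norm_ker_le m hζ hw).trans ?_
    rw [← Real.exp_add]
    have h1 : -(m * ‖w - ζ‖ ^ 2 / 16) + -(m * ‖w - ζ‖ ^ 2 / 16) = -(m * ‖w - ζ‖ ^ 2 / 8) := by ring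
    rw [h1]
    have h2 : ‖w‖ ^ m ≤ 1 := pow_le_one₀ (norm_nonneg _) hw
    calc ‖w‖ ^ m * Real.exp (-(m * ‖w - ζ‖ ^ 2 / 8)) ≤ 1 * Real.exp (-(m * ‖w - ζ‖ ^ 2 / 8)) := by
          gcongr
      _ = _ := one_mul _
  have hexp1 : ∀ ζ w : EuclideanSpace ℂ (Fin n), Real.exp (-(m * ‖w - ζ‖ ^ 2 / 16)) ≤ 1 := by
    intro ζ w
    apply Real.exp_le_one_iff.mpr
    have : 0 ≤ (m : ℝ) * ‖w - ζ‖ ^ 2 / 16 := by positivity
    linarith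
  have hker' : ∀ ζ w : EuclideanSpace ℂ (Fin n), ‖ζ‖ = 1 → ‖w‖ ≤ 1 →
      ‖ker m ζ w‖ ≤ Real.exp (-(m * ‖w - ζ‖ ^ 2 / 16)) := by
    intro ζ w hζ hw
    refine (hker ζ w hζ hw).trans ?_
    have h1 := hexp1 ζ w
    have h2 := Real.exp_pos (-(m * ‖w - ζ‖ ^ 2 / 16))
    nlinarith
  -- error term
  have herr : ∀ w : EuclideanSpace ℂ (Fin n), ‖w‖ ≤ 1 →
      ∑ ζ ∈ Z γ, |φ ζ - φ w| * ‖ker m ζ w‖ ≤ η := by
    intro w hw
    have h1 : ∀ ζ ∈ Z γ, |φ ζ - φ w| * ‖ker m ζ w‖ ≤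
        (η / C0) * Real.exp (-(m * ‖w - ζ‖ ^ 2 / 16)) := by
      intro ζ hζ
      have hζ1 := hZ1 γ ζ hζ
      by_cases hd : ‖w - ζ‖ < τ
      · have h2 := hτφ w ζ hw hζ1.le hd
        have h3 := hker' ζ w hζ1 hw
        have h4 : η / (2 * C0) ≤ η / C0 := by
          apply div_le_div_of_nonneg_left hη.le hC0
          linarith
        have h5 : |φ ζ - φ w| ≤ η / C0 := h2.trans h4
        exact mul_le_mul h5 h3 (norm_nonneg _) (by positivity)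
      · have hd := not_lt.mp hd
        have h2 : |φ ζ - φ w| ≤ 1 := by
          rw [abs_le]
          have := hφ0 ζ; have := hφ1 ζ; have := hφ0 w; have := hφ1 w
          constructor <;> linarith
        have h3 := hker ζ w hζ1 hw
        have h4 : Real.exp (-(m * ‖w - ζ‖ ^ 2 / 16)) ≤ Real.exp (-(m * τ ^ 2 / 16)) := by
          apply Real.exp_le_exp.mpr
          have : τ ^ 2 ≤ ‖w - ζ‖ ^ 2 := by gcongr
          have hmm : (0 : ℝ) ≤ m := Nat.cast_nonneg m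
          nlinarith
        have h5 : η / (2 * C0) ≤ η / C0 := by
          apply div_le_div_of_nonneg_left hη.le hC0
          linarith
        calc |φ ζ - φ w| * ‖ker m ζ w‖
            ≤ 1 * (Real.exp (-(m * ‖w - ζ‖ ^ 2 / 16)) * Real.exp (-(m * ‖w - ζ‖ ^ 2 / 16))) := by
              gcongr
          _ ≤ (η / C0) * Real.exp (-(m * ‖w - ζ‖ ^ 2 / 16)) := by
              rw [one_mul]
              gcongr
              linarith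
    calc ∑ ζ ∈ Z γ, |φ ζ - φ w| * ‖ker m ζ w‖
        ≤ ∑ ζ ∈ Z γ, (η / C0) * Real.exp (-(m * ‖w - ζ‖ ^ 2 / 16)) := Finset.sum_le_sum h1
      _ = (η / C0) * ∑ ζ ∈ Z γ, Real.exp (-(m * ‖w - ζ‖ ^ 2 / 16)) := by rw [Finset.mul_sum]
      _ ≤ (η / C0) * C0 := by
          gcongr
          exact hZ2 γ w
      _ = η := by field_simp
  -- decomposition
  have hdec : ∀ w : EuclideanSpace ℂ (Fin n), ∑ ζ ∈ Z γ, (φ ζ : ℂ) * ker m ζ w =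
      (φ w : ℂ) * ∑ ζ ∈ Z γ, ker m ζ w + ∑ ζ ∈ Z γ, ((φ ζ - φ w : ℝ) : ℂ) * ker m ζ w := by
    intro w
    rw [Finset.mul_sum, ← Finset.sum_add_distrib]
    refine Finset.sum_congr rfl (fun ζ _ => ?_)
    push_cast; ring
  have herr' : ∀ w : EuclideanSpace ℂ (Fin n), ‖w‖ ≤ 1 →
      ‖∑ ζ ∈ Z γ, ((φ ζ - φ w : ℝ) : ℂ) * ker m ζ w‖ ≤ η := by
    intro w hw
    refine (norm_sum_le _ _).trans (le_trans (Finset.sum_le_sum (fun ζ _ => ?_)) (herr w hw))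
    rw [norm_mul, Complex.norm_real, Real.norm_eq_abs]
  refine ⟨fun w => ∑ ζ ∈ Z γ, (φ ζ : ℂ) * ker m ζ w, 2 * m, ?_, ?_, ?_, ?_, ?_⟩
  · have : (fun w : EuclideanSpace ℂ (Fin n) => ∑ ζ ∈ Z γ, (φ ζ : ℂ) * ker m ζ w)
        = ∑ ζ ∈ Z γ, (φ ζ : ℂ) • (fun w => ker m ζ w) := by
      funext w; simp [Finset.sum_apply]
    rw [this]
    exact Submodule.sum_mem _ (fun ζ _ => Submodule.smul_mem _ _ (ker_mem_LE m ζ))
  · have : (fun w : EuclideanSpace ℂ (Fin n) => ∑ ζ ∈ Z γ, (φ ζ : ℂ) * ker m ζ w)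
        = ∑ ζ ∈ Z γ, (φ ζ : ℂ) • (fun w => ker m ζ w) := by
      funext w; simp [Finset.sum_apply]
    rw [this]
    exact Submodule.sum_mem _ (fun ζ _ => Submodule.smul_mem _ _ (ker_mem_GT m hmD ζ))
  · intro w hw
    simp only
    rw [hdec w]
    have h1 : ‖∑ ζ ∈ Z γ, ker m ζ w‖ ≤ C0 :=
      (norm_sum_le _ _).trans (le_trans (Finset.sum_le_sum
        (fun ζ hζ => hker' ζ w (hZ1 γ ζ hζ) hw)) (hZ2 γ w))
    calc ‖(φ w : ℂ) * ∑ ζ ∈ Z γ, ker m ζ w + ∑ ζ ∈ Z γ, ((φ ζ - φ w : ℝ) : ℂ) * ker m ζ w‖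
        ≤ ‖(φ w : ℂ) * ∑ ζ ∈ Z γ, ker m ζ w‖ + ‖∑ ζ ∈ Z γ, ((φ ζ - φ w : ℝ) : ℂ) * ker m ζ w‖ :=
          norm_add_le _ _
      _ ≤ C0 * φ w + η := by
          rw [norm_mul, Complex.norm_real, Real.norm_of_nonneg (hφ0 w)]
          have := herr' w hw
          have := hφ0 w
          nlinarith
  · intro w hw
    have hw1 : ‖w‖ ≤ 1 := hw.trans hρ1.le
    refine (norm_sum_le _ _).trans ?_
    have h1 : ∀ ζ ∈ Z γ, ‖(φ ζ : ℂ) * ker m ζ w‖ ≤ ρ ^ m * Real.exp (-(m * ‖w - ζ‖ ^ 2 / 16)) := by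
      intro ζ hζ
      rw [norm_mul, Complex.norm_real, Real.norm_of_nonneg (hφ0 ζ)]
      have h2 := norm_ker_le m (hZ1 γ ζ hζ) hw1
      have h3 : Real.exp (-(m * ‖w - ζ‖ ^ 2 / 8)) ≤ Real.exp (-(m * ‖w - ζ‖ ^ 2 / 16)) := by
        apply Real.exp_le_exp.mpr
        have : 0 ≤ (m : ℝ) * ‖w - ζ‖ ^ 2 := by positivity
        linarith
      have h4 : ‖w‖ ^ m ≤ ρ ^ m := by gcongr
      calc φ ζ * ‖ker m ζ w‖ ≤ 1 * (‖w‖ ^ m * Real.exp (-(m * ‖w - ζ‖ ^ 2 / 8))) := by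
            have := hφ1 ζ
            gcongr
        _ = ‖w‖ ^ m * Real.exp (-(m * ‖w - ζ‖ ^ 2 / 8)) := one_mul _
        _ ≤ _ := by gcongr
    calc ∑ ζ ∈ Z γ, ‖(φ ζ : ℂ) * ker m ζ w‖
        ≤ ∑ ζ ∈ Z γ, ρ ^ m * Real.exp (-(m * ‖w - ζ‖ ^ 2 / 16)) := Finset.sum_le_sum h1
      _ = ρ ^ m * ∑ ζ ∈ Z γ, Real.exp (-(m * ‖w - ζ‖ ^ 2 / 16)) := by rw [Finset.mul_sum]
      _ ≤ ρ ^ m * C0 := by
          gcongr
          exact hZ2 γ w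
      _ ≤ η := hmρ
  · refine hγ.trans ?_
    refine mul_le_mul_right (measure_mono ?_) _
    intro z hz
    obtain ⟨hz1, hzγ⟩ := hz
    refine ⟨hz1, ?_⟩
    obtain ⟨ζ₀, hζ₀, hd, s, hs, hζs, hsum⟩ := hZ3 z hz1
    rw [hzγ] at hζ₀ hs
    have hζ₀1 := hZ1 γ ζ₀ hζ₀
    have h1 := le_norm_ker m hζ₀1 hz1 hd hm1
    have h2 : ∑ ζ ∈ Z γ, ker m ζ z = ker m ζ₀ z + ∑ ζ ∈ s, ker m ζ z := by
      rw [← hs, Finset.sum_insert hζs]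
    have h3 : ‖∑ ζ ∈ s, ker m ζ z‖ ≤ 1 / 4 := by
      refine (norm_sum_le _ _).trans (le_trans (Finset.sum_le_sum (fun ζ hζ => ?_)) hsum)
      exact hker' ζ z (hZ1 γ ζ (hs ▸ Finset.mem_insert_of_mem hζ)) hz1.le
    have h4 : 1 / 2 ≤ ‖∑ ζ ∈ Z γ, ker m ζ z‖ := by
      rw [h2]
      have := norm_sub_le_norm_add (ker m ζ₀ z) (∑ ζ ∈ s, ker m ζ z)
      linarith
    have h5 := herr' z hz1.le
    have h6 : ‖(φ z : ℂ) * ∑ ζ ∈ Z γ, ker m ζ z‖ = φ z * ‖∑ ζ ∈ Z γ, ker m ζ z‖ := by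
      rw [norm_mul, Complex.norm_real, Real.norm_of_nonneg (hφ0 z)]
    have h7 := norm_sub_le_norm_add ((φ z : ℂ) * ∑ ζ ∈ Z γ, ker m ζ z)
      (∑ ζ ∈ Z γ, ((φ ζ - φ z : ℝ) : ℂ) * ker m ζ z)
    rw [← hdec z, h6] at h7
    have h8 := hφ0 z
    change φ z ≤ 2 * ‖∑ ζ ∈ Z γ, (φ ζ : ℂ) * ker m ζ z‖ + 2 * η
    nlinarith

end Pool.Agent.Work.MP_28e115_an
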